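import Mathlib

set_option linter.unusedSectionVars false

namespace Pool.Agent.H.MP_fc7d68_al

open Finset

abbrev W (X : Type) := Fin 3 → List X

section
variable {X : Type}

def push (a : Fin 3 × X) (ω : W X) : W X := Function.update ω a.1 (a.2 :: ω a.1)

def len (ω : W X) : ℕ := ∑ j, (ω j).length

def sg (r : Fin 3 → Fin 3 → Bool) (i : Fin 3) (ω : W X) : ℤ :=
  (-1) ^ (∑ j, if r j i then (ω j).length else 0)

def rev (ω : W X) : W X := fun j => (ω j).reverse

theorem push_len (a : Fin 3 × X) (ω : W X) (j : Fin 3) :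
    (push a ω j).length = (ω j).length + if j = a.1 then 1 else 0 := by
  unfold push
  by_cases h : j = a.1
  · subst h; simp
  · simp [h]

theorem len_push (a : Fin 3 × X) (ω : W X) : len (push a ω) = len ω + 1 := by
  simp [len, push_len, Finset.sum_add_distrib]

theorem sg_push (r) (i : Fin 3) (a : Fin 3 × X) (ω : W X) :
    sg r i (push a ω) = (if r a.1 i then -1 else 1) * sg r i ω := by
  unfold sg
  have : (∑ j, if r j i then (push a ω j).length else 0) =
      (if r a.1 i then 1 else 0) + ∑ j, if r j i then (ω j).length else 0 := by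
    rw [← Fintype.sum_ite_eq a.1 (fun j => if r j i then 1 else 0), ← Finset.sum_add_distrib]
    refine Finset.sum_congr rfl fun j _ => ?_
    rw [push_len]
    by_cases h : j = a.1
    · subst h; split_ifs <;> simp_all [add_comm]
    · have h' : ¬ a.1 = j := fun e => h e.symm
      simp [h, h']
  rw [this, pow_add]
  split_ifs <;> simp

theorem sg_sq (r) (i : Fin 3) (ω : W X) : sg r i ω * sg r i ω = 1 := by
  unfold sg
  rw [← mul_pow]; simp

theorem push_comm (a b : Fin 3 × X) (h : a.1 ≠ b.1) (ω : W X) :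
    push a (push b ω) = push b (push a ω) := by
  unfold push
  rw [Function.update_of_ne h, Function.update_of_ne h.symm, Function.update_comm h]

theorem push_self (j : Fin 3) (x : X) (ω : W X) : push (j, x) ω j = x :: ω j := by simp [push]

theorem push_ne (a : Fin 3 × X) (j : Fin 3) (h : j ≠ a.1) (ω : W X) : push a ω j = ω j := by
  simp [push, h]

theorem push_inj {a b : Fin 3 × X} {ω ω' : W X} (h : a.1 = b.1) (e : push a ω = push b ω') :
    a = b ∧ ω = ω' := by
  obtain ⟨i, x⟩ := a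
  obtain ⟨j, y⟩ := b
  obtain rfl : i = j := h
  have h1 := congrFun e i
  rw [push_self, push_self] at h1
  obtain ⟨rfl, h2⟩ := List.cons.inj h1
  refine ⟨rfl, funext fun k => ?_⟩
  by_cases hk : k = i
  · rw [hk, h2]
  · have := congrFun e k
    rwa [push_ne _ _ hk, push_ne _ _ hk] at this

theorem eq_push {ω : W X} {j : Fin 3} {x : X} {t : List X} (h : ω j = x :: t) :
    ω = push (j, x) (Function.update ω j t) := by
  unfold push
  simp [← h]

theorem rev_rev (ω : W X) : rev (rev ω) = ω := by funext j; simp [rev]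

theorem len_rev (ω : W X) : len (rev ω) = len ω := by simp [len, rev]

theorem sg_rev (r) (i : Fin 3) (ω : W X) : sg r i (rev ω) = sg r i ω := by simp [sg, rev]

def app (a : Fin 3 × X) (ω : W X) : W X := rev (push a (rev ω))

theorem app_push (a b : Fin 3 × X) (ω : W X) : app a (push b ω) = push b (app a ω) := by
  funext j
  obtain ⟨i, x⟩ := a
  obtain ⟨k, y⟩ := b
  by_cases h1 : j = i <;> by_cases h2 : j = k
  · subst h1; subst h2; simp [app, rev, push]
  · subst h1; simp [app, rev, push, h2]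
  · subst h2; simp [app, rev, push, h1]
  · simp [app, rev, push, h1, h2]

end

/-- order data for the signs -/
def Ord (r : Fin 3 → Fin 3 → Bool) : Prop :=
  (∀ i, r i i = false) ∧ ∀ i j, i ≠ j → r i j = !r j i

structure Sys (K R X : Type) [Field K] [CommRing R] [Algebra K R] [Fintype X] [DecidableEq X] where
  ξ : Fin 3 × X → R
  π : Fin 3 → R →ₗ[K] R
  D : Fin 3 × X → R →ₗ[K] R
  c0 : R →ₗ[K] K
  c1 : Fin 3 × X → R →ₗ[K] K
  h1 : ∀ a b, a.1 = b.1 → ξ a * ξ b = 0
  h2 : ∀ j r, ∑ x, ξ (j, x) * D (j, x) r = r - π j r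
  h3 : ∀ j x y r, D (j, x) (ξ (j, y) * r) = if x = y then π j r else 0
  h5 : ∀ a b r, a.1 ≠ b.1 → D a (ξ b * r) = ξ b * D a r
  k0 : c0 1 = 1
  k1 : ∀ a r, c0 (ξ a * r) = 0
  k2 : ∀ a b r, c1 a (ξ b * r) = if a = b then c0 r else 0
  k3 : ∀ r, ∃ y : Fin 3 × X → R, r = algebraMap K R (c0 r) + ∑ a, ξ a * y a

variable {K R X : Type} [Field K] [CommRing R] [Algebra K R] [Fintype X] [DecidableEq X]
  (S : Sys K R X) (r : Fin 3 → Fin 3 → Bool)

def T (f : W X → R) (ω : W X) : R := ∑ a, sg r a.1 ω • (S.ξ a * f (push a ω))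

def σ (j : Fin 3) (f : W X → R) (ω : W X) : R :=
  match ω j with
  | [] => 0
  | x :: t => sg r j ω • S.D (j, x) (f (Function.update ω j t))

def P (j : Fin 3) (f : W X → R) (ω : W X) : R := if ω j = [] then S.π j (f ω) else 0

theorem σ_nil (j : Fin 3) (f : W X → R) (ω : W X) (h : ω j = []) : σ S r j f ω = 0 := by
  unfold σ; rw [h]

theorem σ_push (hr : Ord r) (j : Fin 3) (x : X) (f : W X → R) (ω : W X) :
    σ S r j f (push (j, x) ω) = sg r j ω • S.D (j, x) (f ω) := by
  unfold σ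
  rw [push_self]
  simp only []
  rw [sg_push, hr.1]
  simp [push]

theorem sgn_cancel (hr : Ord r) {i j : Fin 3} (h : i ≠ j) (x y : X) (ω : W X) :
    sg r i (push (j, x) ω) * sg r j (push (i, y) ω) = - (sg r j ω * sg r i ω) := by
  rw [sg_push, sg_push, hr.2 i j h]
  cases r j i <;> simp [mul_comm]

theorem homot (hr : Ord r) (j : Fin 3) (f : W X → R) (ω : W X) :
    T S r (σ S r j f) ω + σ S r j (T S r f) ω = f ω - P S j f ω := by
  have main : ∑ y, sg r j ω • (S.ξ (j, y) * σ S r j f (push (j, y) ω)) = f ω - S.π j (f ω) := by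
    rw [← S.h2 j]
    refine Finset.sum_congr rfl fun y _ => ?_
    rw [σ_push S r hr, mul_smul_comm, smul_smul, sg_sq, one_smul]
  cases h : ω j with
  | nil =>
    rw [σ_nil S r j _ ω h, add_zero, P, if_pos h, T, Fintype.sum_prod_type,
      Finset.sum_eq_single j _ (by simp), main]
    intro i _ hi
    refine Finset.sum_eq_zero fun y _ => ?_
    rw [σ_nil S r j f _ (by rw [push_ne _ _ hi.symm, h])]
    simp
  | cons x t =>
    rw [P, if_neg (by simp [h]), sub_zero]
    obtain ⟨ω', rfl⟩ : ∃ ω', ω = push (j, x) ω' := ⟨_, eq_push h⟩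
    rw [σ_push S r hr, T, T, map_sum, Finset.smul_sum, ← Finset.sum_add_distrib,
      Fintype.sum_prod_type, Finset.sum_eq_single j _ (by simp), Finset.sum_add_distrib, main]
    · have : ∀ y, sg r j ω' • S.D (j, x) (sg r j ω' • (S.ξ (j, y) * f (push (j, y) ω'))) =
          if x = y then S.π j (f (push (j, y) ω')) else 0 := by
        intro y
        rw [map_zsmul, smul_smul, sg_sq, one_smul, S.h3]
      simp only [this]
      simp
    · intro i _ hi
      refine Finset.sum_eq_zero fun y _ => ?_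
      rw [push_comm (i, y) (j, x) hi, σ_push S r hr, map_zsmul, S.h5 (j, x) (i, y) _ hi.symm,
        mul_smul_comm, smul_smul, smul_smul, sgn_cancel r hr hi, ← add_smul]
      simp

/-- square zero, for any commuting family of push operators -/
theorem sq_zero {N : Type} [AddCommGroup N] [Module R N] (hr : Ord r)
    (F : Fin 3 × X → Fin 3 × X → N) (s : Fin 3 → ℤ)
    (hF : ∀ a b, a.1 ≠ b.1 → F a b = F b a) :
    ∑ a, s a.1 • (S.ξ a • ∑ b, ((if r a.1 b.1 then -1 else 1) * s b.1) • (S.ξ b • F a b)) = 0 := by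
  simp only [Finset.smul_sum]
  rw [← Finset.sum_product']
  have z : ∀ a b : Fin 3 × X, a.1 = b.1 →
      s a.1 • (S.ξ a • ((if r a.1 b.1 then -1 else 1) * s b.1) • (S.ξ b • F a b)) = 0 := by
    intro a b h
    rw [smul_comm (S.ξ a), smul_smul (S.ξ a), S.h1 a b h]
    simp
  refine Finset.sum_involution (fun p _ => p.swap) ?_ ?_ (by simp) (by simp)
  · rintro ⟨a, b⟩ _
    by_cases h : a.1 = b.1
    · simp only [Prod.swap, z a b h, z b a h.symm, add_zero]
    · simp only [Prod.swap]
      rw [hF a b h, smul_comm (S.ξ a), smul_comm (S.ξ b), smul_smul (S.ξ a), smul_smul (S.ξ b),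
        smul_smul, smul_smul, mul_comm (S.ξ b), ← add_smul]
      have := hr.2 _ _ h
      rcases Bool.eq_false_or_eq_true (r b.1 a.1) with h' | h' <;> simp [h'] at this <;>
        simp [this, h', mul_comm]
  · rintro ⟨a, b⟩ _ h e
    have e' : b = a := (Prod.mk.inj e).1
    subst e'
    exact h (z _ _ rfl)

theorem T_T (hr : Ord r) (f : W X → R) (ω : W X) : T S r (T S r f) ω = 0 := by
  have := sq_zero S r hr (fun a b => f (push b (push a ω))) (fun i => sg r i ω)
    (fun a b h => by rw [push_comm a b h])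
  simpa only [T, sg_push, smul_eq_mul] using this

theorem step (hr : Ord r) (j : Fin 3) (f : W X → R) (hf : ∀ ω, T S r f ω = 0) :
    (∀ ω, T S r (P S j f) ω = 0) ∧ ∀ ω, f ω = T S r (σ S r j f) ω + P S j f ω := by
  have e : ∀ ω, f ω = T S r (σ S r j f) ω + P S j f ω := by
    intro ω
    have := homot S r hr j f ω
    have h0 : σ S r j (T S r f) ω = 0 := by
      unfold σ
      split <;> simp [hf]
    rw [h0] at this
    linear_combination -this
  refine ⟨fun ω => ?_, e⟩
  have h1 : P S j f = fun ω => f ω - T S r (σ S r j f) ω := by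
    funext ω; rw [e ω]; ring
  have h2 := T_T S r hr (σ S r j f) ω
  have h3 := hf ω
  rw [h1]
  unfold T at h2 h3 ⊢
  simp only [mul_sub, smul_sub, Finset.sum_sub_distrib, h3]
  rw [h2]; simp

theorem exact_glob (hr : Ord r) (f : W X → R) (hf : ∀ ω, T S r f ω = 0) :
    ∃ g, ∀ ω, len ω ≠ 0 → T S r g ω = f ω := by
  obtain ⟨a0, b0⟩ := step S r hr 0 f hf
  obtain ⟨a1, b1⟩ := step S r hr 1 _ a0
  obtain ⟨-, b2⟩ := step S r hr 2 _ a1
  refine ⟨σ S r 0 f + σ S r 1 (P S 0 f) + σ S r 2 (P S 1 (P S 0 f)), fun ω h => ?_⟩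
  have z : P S 2 (P S 1 (P S 0 f)) ω = 0 := by
    unfold P
    split_ifs with h2 h1 h0
    · exact absurd (by simp [len, Fin.sum_univ_three, h0, h1, h2]) h
    all_goals simp
  rw [b0 ω, b1 ω, b2 ω, z]
  simp only [T, Pi.add_apply, mul_add, smul_add, Finset.sum_add_distrib]
  ring

/-! degree-wise versions -/

abbrev Wd (X : Type) (i : ℕ) := {ω : W X // len ω = i}

instance (i : ℕ) : Finite (Wd X i) := by
  have h : {ω : W X | len ω = i}.Finite := by
    refine (Set.Finite.pi' (fun _ : Fin 3 => List.finite_length_le X i)).subset ?_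
    intro ω hω j
    have : (ω j).length ≤ len ω :=
      Finset.single_le_sum (f := fun j => (ω j).length) (fun _ _ => Nat.zero_le _) (mem_univ j)
    exact this.trans (le_of_eq hω)
  exact h.to_subtype

noncomputable instance (i : ℕ) : Fintype (Wd X i) := Fintype.ofFinite _

def pu {i : ℕ} (a : Fin 3 × X) (ω : Wd X i) : Wd X (i + 1) :=
  ⟨push a ω.1, by rw [len_push, ω.2]⟩

def ap {i : ℕ} (a : Fin 3 × X) (ω : Wd X i) : Wd X (i + 1) :=
  ⟨app a ω.1, by rw [app, len_rev, len_push, len_rev, ω.2]⟩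

def rv {i : ℕ} (ω : Wd X i) : Wd X i := ⟨rev ω.1, by rw [len_rev, ω.2]⟩

variable {N : Type} [AddCommGroup N] [Module R N]

def TL {i : ℕ} (f : Wd X (i + 1) → N) (ω : Wd X i) : N :=
  ∑ a, sg r a.1 ω.1 • (S.ξ a • f (pu a ω))

def TR {i : ℕ} (f : Wd X (i + 1) → N) (ω : Wd X i) : N :=
  ∑ a, sg r a.1 ω.1 • (S.ξ a • f (ap a ω))

theorem TR_eq {i : ℕ} (f : Wd X (i + 1) → N) (ω : Wd X i) :
    TR S r f ω = TL S r (fun z => f (rv z)) (rv ω) := by
  unfold TR TL
  refine Finset.sum_congr rfl fun a _ => ?_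
  rw [show sg r a.1 (rv ω).1 = sg r a.1 ω.1 from sg_rev r _ _]
  rfl

theorem rv_rv {i : ℕ} (ω : Wd X i) : rv (rv ω) = ω := Subtype.ext (rev_rev _)

theorem TL_TL (hr : Ord r) {i : ℕ} (f : Wd X (i + 2) → N) (ω : Wd X i) :
    TL S r (TL S r f) ω = 0 := by
  have := sq_zero S r hr (fun a b => f (pu b (pu a ω))) (fun i => sg r i ω.1)
    (fun a b h => congrArg f (Subtype.ext (push_comm b a (Ne.symm h) _)))
  simpa only [TL, pu, sg_push] using this

theorem TR_TR (hr : Ord r) {i : ℕ} (f : Wd X (i + 2) → N) (ω : Wd X i) :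
    TR S r (TR S r f) ω = 0 := by
  rw [TR_eq]
  simp only [TR_eq, rv_rv]
  exact TL_TL S r hr _ _

theorem exL1 (hr : Ord r) {i : ℕ} (f : Wd X (i + 1) → R) (hf : ∀ ω, TL S r f ω = 0) :
    ∃ g : Wd X (i + 2) → R, ∀ ω, TL S r g ω = f ω := by
  classical
  obtain ⟨g, hg⟩ := exact_glob S r hr (fun ω => if h : len ω = i + 1 then f ⟨ω, h⟩ else 0) (by
    intro ω
    by_cases h : len ω = i
    · refine Eq.trans ?_ (hf ⟨ω, h⟩)
      refine Finset.sum_congr rfl fun a _ => ?_
      have : len (push a ω) = i + 1 := by rw [len_push, h]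
      simp only [dif_pos this]
      rfl
    · refine Finset.sum_eq_zero fun a _ => ?_
      have : ¬ len (push a ω) = i + 1 := by rw [len_push]; omega
      simp only [dif_neg this]
      simp)
  refine ⟨fun z => g z.1, fun ω => ?_⟩
  have := hg ω.1 (by rw [ω.2]; omega)
  rw [dif_pos ω.2] at this
  exact this

theorem exL (hr : Ord r) {ι : Type} {i : ℕ} (f : Wd X (i + 1) → ι → R)
    (hf : ∀ ω, TL S r f ω = 0) : ∃ g : Wd X (i + 2) → ι → R, ∀ ω, TL S r g ω = f ω := by
  have : ∀ k, ∃ g : Wd X (i + 2) → R, ∀ ω, TL S r g ω = f ω k := fun k =>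
    exL1 S r hr (fun z => f z k) fun ω => by
      have := congrFun (hf ω) k
      simpa only [TL, Finset.sum_apply, Pi.smul_apply, Pi.zero_apply] using this
  choose g hg using this
  refine ⟨fun z k => g k z, fun ω => funext fun k => ?_⟩
  rw [← hg]
  simp only [TL, Finset.sum_apply, Pi.smul_apply]

theorem exR (hr : Ord r) {ι : Type} {i : ℕ} (f : Wd X (i + 1) → ι → R)
    (hf : ∀ ω, TR S r f ω = 0) : ∃ g : Wd X (i + 2) → ι → R, ∀ ω, TR S r g ω = f ω := by
  obtain ⟨g, hg⟩ := exL S r hr (fun z => f (rv z)) fun ω => by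
    have := hf (rv ω)
    rwa [TR_eq, rv_rv] at this
  refine ⟨fun z => g (rv z), fun ω => ?_⟩
  rw [TR_eq]
  simp only [rv_rv, hg]

end Pool.Agent.H.MP_fc7d68_al
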