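import Mathlib
import Pool.Agent.H.MP_fc7d68_al.A

set_option linter.unusedSectionVars false

namespace Pool.Agent.H.MP_fc7d68_al

open Finset Matrix

def LinRes {K R : Type} [Field K] [CommRing R] [Algebra K R] (L : Submodule K R) {ι : Type}
    (N : Submodule R (ι → R)) : Prop :=
  ∃ (b : ℕ → ℕ) (d0 : Matrix (Fin (b 0)) ι R) (d : ∀ i, Matrix (Fin (b (i + 1))) (Fin (b i)) R),
    (∀ j k, d0 j k ∈ L) ∧ (∀ i j k, d i j k ∈ L) ∧
    LinearMap.range d0.vecMulLinear = N ∧
    LinearMap.ker d0.vecMulLinear = LinearMap.range (d 0).vecMulLinear ∧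
    ∀ i, LinearMap.ker (d i).vecMulLinear = LinearMap.range (d (i + 1)).vecMulLinear

variable {K R X : Type} [Field K] [CommRing R] [Algebra K R] [Fintype X] [DecidableEq X]
  (S : Sys K R X) (r : Fin 3 → Fin 3 → Bool)

def Sys.L : Submodule K R := Submodule.span K (Set.range S.ξ)

theorem c0_L {l : R} (h : l ∈ S.L) (y : R) : S.c0 (l * y) = 0 := by
  obtain ⟨c, rfl⟩ := (Submodule.mem_span_range_iff_exists_fun K).1 h
  simp [Finset.sum_mul, S.k1]

theorem L_zero {l : R} (h : l ∈ S.L) (h1 : ∀ a, S.c1 a l = 0) : l = 0 := by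
  obtain ⟨c, rfl⟩ := (Submodule.mem_span_range_iff_exists_fun K).1 h
  have : ∀ a, c a = 0 := by
    intro a
    have h2 := h1 a
    have h3 : ∀ b, S.c1 a (S.ξ b) = if a = b then 1 else 0 := by
      intro b
      have := S.k2 a b 1
      rwa [mul_one, S.k0] at this
    simpa [h3] using h2
  simp [this]

theorem lingen {α β : Type} [Fintype α] (m : Matrix α β R) (hm : ∀ j k, m j k ∈ S.L)
    (v : α → R) (h : ∀ k a, S.c1 a ((v ᵥ* m) k) = 0) :
    ∃ y : Fin 3 × X → α → R, v ᵥ* m = (∑ a, S.ξ a • y a) ᵥ* m := by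
  choose y hy using fun j => S.k3 (v j)
  refine ⟨fun a j => y j a, ?_⟩
  have e : v = (fun j => algebraMap K R (S.c0 (v j))) + ∑ a, S.ξ a • fun j => y j a := by
    funext j
    simpa using hy j
  have z : (fun j => algebraMap K R (S.c0 (v j))) ᵥ* m = 0 := by
    funext k
    refine L_zero S ?_ fun a => ?_
    · simp only [vecMul, dotProduct, ← Algebra.smul_def]
      exact Submodule.sum_mem _ fun j _ => Submodule.smul_mem _ _ (hm j k)
    · have h2 := h k a
      rw [e, add_vecMul, Pi.add_apply, map_add] at h2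
      rw [← h2, left_eq_add]
      simp only [vecMul, dotProduct, Finset.sum_apply, Pi.smul_apply, smul_eq_mul, Finset.sum_mul,
        map_sum, mul_assoc, S.k2]
      refine Finset.sum_eq_zero fun j _ => Finset.sum_eq_zero fun b _ => ?_
      rw [mul_comm, c0_L S (hm j k)]
      simp
  conv_lhs => rw [e, add_vecMul, z, zero_add]

def w0 : Wd X 0 := ⟨fun _ => [], by simp [len]⟩

theorem eq_w0 (ω : Wd X 0) : ω = w0 := by
  refine Subtype.ext (funext fun j => ?_)
  have := ω.2
  unfold len at this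
  rw [Finset.sum_eq_zero_iff] at this
  exact List.length_eq_zero_iff.1 (this j (mem_univ j))

theorem sg_w0 (i : Fin 3) : sg r i (w0 : Wd X 0).1 = 1 := by simp [sg, w0]

theorem push_inj' {a b : Fin 3 × X} {ω : W X} (e : push a ω = push b ω) : a = b := by
  by_cases h : a.1 = b.1
  · exact (push_inj h e).1
  · have := congrArg List.length (congrFun e a.1)
    rw [push_len, push_len] at this
    simp [h] at this

theorem ap_w0 (a : Fin 3 × X) : ap a (w0 : Wd X 0) = pu a w0 := by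
  refine Subtype.ext (funext fun j => ?_)
  by_cases h : j = a.1
  · subst h; simp [ap, pu, app, rev, push, w0]
  · simp [ap, pu, app, rev, push, w0, h]

theorem base0 {N : Type} [Zero N] (y : Fin 3 × X → N) :
    ∃ e : Wd X 1 → N, ∀ a, e (pu a w0) = y a :=
  ⟨Function.extend (fun a => pu a w0) y 0, fun _ =>
    Function.Injective.extend_apply (fun _ _ h => push_inj' (congrArg Subtype.val h)) _ _ _⟩

def Cy {N : Type} [AddCommGroup N] [Module R N] : (q : ℕ) → (Wd X q → N) → Prop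
  | 0, _ => True
  | _ + 1, c => ∀ ω, TL S r c ω = 0

def Claim (q : ℕ) {α β : Type} [Fintype α] (m : Matrix α β R) : Prop :=
  ∀ c : Wd X q → α → R, (∀ ω, ∃ y : Fin 3 × X → α → R, c ω = ∑ a, S.ξ a • y a) →
    Cy S r q (fun ω => c ω ᵥ* m) →
    ∃ e : Wd X (q + 1) → α → R, ∀ ω, TL S r e ω ᵥ* m = c ω ᵥ* m

theorem TL_vm {q : ℕ} {α β : Type} [Fintype α] (m : Matrix α β R) (e : Wd X (q + 1) → α → R)
    (ω : Wd X q) : TL S r e ω ᵥ* m = TL S r (fun z => e z ᵥ* m) ω := by
  change m.vecMulLinear _ = _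
  simp only [TL, map_sum, map_zsmul, map_smul]
  rfl

theorem bd0 {α : Type} (c : Wd X 0 → α → R)
    (hc : ∀ ω, ∃ y : Fin 3 × X → α → R, c ω = ∑ a, S.ξ a • y a) :
    ∃ e : Wd X 1 → α → R, ∀ ω, TL S r e ω = c ω := by
  obtain ⟨y, hy⟩ := hc w0
  obtain ⟨e, he⟩ := base0 y
  refine ⟨e, fun ω => ?_⟩
  rw [eq_w0 ω, hy]
  simp [TL, sg_w0, he]

theorem core (hr : Ord r) (q : ℕ) {α γ : Type} [Fintype γ] (m : Matrix γ α R)
    (hm : ∀ j k, m j k ∈ S.L) (ih : Claim S r q m) (c : Wd X (q + 1) → α → R)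
    (hc : ∀ ω, ∃ y : Fin 3 × X → α → R, c ω = ∑ a, S.ξ a • y a)
    (hu : ∀ ω, ∃ u, TL S r c ω = u ᵥ* m) :
    ∃ (e : Wd X (q + 1) → γ → R) (f : Wd X (q + 2) → α → R),
      ∀ z, c z = e z ᵥ* m + TL S r f z := by
  choose y hy using hc
  have h1 : ∀ ω, ∃ y' : Fin 3 × X → γ → R, TL S r c ω = (∑ a, S.ξ a • y' a) ᵥ* m := by
    intro ω
    obtain ⟨u, hu⟩ := hu ω
    rw [hu]
    refine lingen S m hm u fun k a => ?_
    rw [← hu]
    simp only [TL, hy, Finset.sum_apply, Pi.smul_apply, smul_eq_mul, map_sum, map_zsmul, S.k2,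
      S.k1]
    simp
  choose y' hy' using h1
  obtain ⟨e, he⟩ := ih (fun ω => ∑ a, S.ξ a • y' ω a) (fun ω => ⟨_, rfl⟩) (by
    simp only [← hy']
    cases q with
    | zero => trivial
    | succ q => exact TL_TL S r hr c)
  obtain ⟨f, hf⟩ := exL S r hr (fun z => c z - e z ᵥ* m) fun ω => by
    have := he ω
    rw [← hy', TL_vm] at this
    unfold TL at this ⊢
    simp only [smul_sub, Finset.sum_sub_distrib, this, sub_self]
  exact ⟨e, f, fun z => by rw [hf]; abel⟩

theorem stepgen (hr : Ord r) (q : ℕ) {α β γ : Type} [Fintype α] [Fintype γ] (m : Matrix α β R)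
    (m' : Matrix γ α R) (hm : ∀ j k, m' j k ∈ S.L)
    (hk : LinearMap.ker m.vecMulLinear = LinearMap.range m'.vecMulLinear)
    (ih : Claim S r q m') : Claim S r (q + 1) m := by
  intro c hc hcy
  obtain ⟨e, f, h⟩ := core S r hr q m' hm ih c hc fun ω => by
    have : TL S r c ω ∈ LinearMap.ker m.vecMulLinear := by
      rw [LinearMap.mem_ker, vecMulLinear_apply, TL_vm]
      exact hcy ω
    rw [hk] at this
    obtain ⟨u, hu⟩ := this
    exact ⟨u, hu.symm⟩
  refine ⟨f, fun z => ?_⟩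
  have : e z ᵥ* m' ∈ LinearMap.ker m.vecMulLinear := by rw [hk]; exact ⟨_, rfl⟩
  rw [LinearMap.mem_ker, vecMulLinear_apply] at this
  rw [h z, add_vecMul, this, zero_add]

theorem claim0 {α β : Type} [Fintype α] (m : Matrix α β R) : Claim S r 0 m := by
  intro c hc _
  obtain ⟨e, he⟩ := bd0 S r c hc
  exact ⟨e, fun ω => by rw [he]⟩

theorem chase (hr : Ord r) {ι : Type} [Fintype ι] {N : Submodule R (ι → R)} (h : LinRes S.L N)
    (h2 : ∀ a b (v : ι → R), S.ξ a • S.ξ b • v ∈ N) (q : ℕ) (c : Wd X q → ι → R)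
    (hc : ∀ ω, ∃ y : Fin 3 × X → ι → R, c ω = ∑ a, S.ξ a • y a) :
    ∃ f : Wd X (q + 1) → ι → R, ∀ z, c z - TL S r f z ∈ N := by
  obtain ⟨b, d0, d, l0, l1, e0, e1, e2⟩ := h
  have cl : ∀ q p, Claim S r q (d p) := by
    intro q
    induction q with
    | zero => exact fun p => claim0 S r _
    | succ q ih => exact fun p => stepgen S r hr q _ _ (l1 _) (e2 p) (ih _)
  have cl0 : ∀ q, Claim S r q d0 := by
    intro q
    cases q with
    | zero => exact claim0 S r _
    | succ q => exact stepgen S r hr q _ _ (l1 _) e1 (cl _ _)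
  cases q with
  | zero =>
    obtain ⟨e, he⟩ := bd0 S r c hc
    exact ⟨e, fun z => by simp [he]⟩
  | succ q =>
    obtain ⟨e, f, h⟩ := core S r hr q d0 l0 (cl0 q) c hc fun ω => by
      have : TL S r c ω ∈ N := by
        refine Submodule.sum_mem _ fun a _ => zsmul_mem ?_ _
        obtain ⟨y, hy⟩ := hc (pu a ω)
        rw [hy, Finset.smul_sum]
        exact Submodule.sum_mem _ fun b _ => h2 _ _ _
      rw [← e0] at this
      obtain ⟨u, hu⟩ := this
      exact ⟨u, hu.symm⟩
    refine ⟨f, fun z => ?_⟩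
    rw [h z, add_sub_cancel_right, ← e0]
    exact ⟨_, rfl⟩

variable {Q : Type} [Fintype Q] [DecidableEq Q] (φ : (Fin 3 × X) × Q → Option ((Fin 3 × X) × Q))

def vec (u : (Fin 3 × X) × Q) : Q → R := Pi.single u.2 (S.ξ u.1)

def rel (u : (Fin 3 × X) × Q) : Q → R := vec S u - (φ u).elim 0 (vec S)

def Nn : Submodule R (Q → R) :=
  Submodule.span R (Set.range (rel S φ) ∪
    Set.range fun t : (Fin 3 × X) × (Fin 3 × X) × Q => Pi.single t.2.2 (S.ξ t.1 * S.ξ t.2.1))

abbrev Rows := {u : (Fin 3 × X) × Q // φ u = some u}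

def Dl {Λ : Type} [AddCommGroup Λ] {i : ℕ} (g : Wd X (i + 1) × Q → Λ) (w : Wd X i × Rows φ) : Λ :=
  ∑ a, ∑ p, if φ (a, p) = some w.2.1 then sg r a.1 w.1.1 • g (pu a w.1, p) else 0

def Surj (K : Type) [Field K] : Prop :=
  ∀ (i : ℕ) (t : Wd X i × Rows φ → K), ∃ g, ∀ w, Dl r φ g w = t w

def mu (u : (Fin 3 × X) × Q) : (Q → R) →ₗ[K] K :=
  ∑ a, ∑ p, if φ (a, p) = some u then (S.c1 a).comp (LinearMap.proj p) else 0

theorem mu_xi (u) (b : Fin 3 × X) (v : Q → R) :
    mu S φ u (S.ξ b • v) = ∑ p, if φ (b, p) = some u then S.c0 (v p) else 0 := by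
  simp only [mu, LinearMap.sum_apply]
  rw [Finset.sum_eq_single b _ (by simp)]
  · refine Finset.sum_congr rfl fun p _ => ?_
    split_ifs <;> simp [S.k2]
  · intro a _ h
    refine Finset.sum_eq_zero fun p _ => ?_
    split_ifs <;> simp [S.k2, h]

theorem mu_vec (u w) (s : R) :
    mu S φ u (s • vec S w) = if φ w = some u then S.c0 s else 0 := by
  have : s • vec S w = S.ξ w.1 • (Pi.single w.2 s : Q → R) := by
    simp [vec, ← Pi.single_smul, mul_comm]
  rw [this, mu_xi, Finset.sum_eq_single w.2 _ (by simp)]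
  · simp
  · intro p _ h
    simp [h]

theorem quad_mem (a b) (v : Q → R) : S.ξ a • S.ξ b • v ∈ Nn S φ := by
  rw [← Finset.univ_sum_single v, Finset.smul_sum, Finset.smul_sum]
  refine Submodule.sum_mem _ fun p _ => ?_
  have : S.ξ a • S.ξ b • (Pi.single p (v p) : Q → R) =
      v p • (Pi.single p (S.ξ a * S.ξ b) : Q → R) := by
    simp only [← Pi.single_smul, smul_eq_mul]
    congr 1; ring
  rw [this]
  exact Submodule.smul_mem _ _ (Submodule.subset_span (Or.inr ⟨(a, b, p), rfl⟩))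

theorem mu_N (hφ : ∀ u w, φ u = some w → φ w = some w) (u) {v : Q → R} (hv : v ∈ Nn S φ) :
    mu S φ u v = 0 := by
  have : ∀ s : R, mu S φ u (s • v) = 0 := by
    induction hv using Submodule.span_induction with
    | mem x hx =>
      intro s
      rcases hx with ⟨w, rfl⟩ | ⟨⟨a, b, p⟩, rfl⟩
      · rw [rel, smul_sub, map_sub, mu_vec]
        cases h : φ w with
        | none => simp
        | some w' => simp [mu_vec, hφ w w' h]
      · have : s • (Pi.single p (S.ξ a * S.ξ b) : Q → R) = (S.ξ b * s) • vec S (a, p) := by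
          simp only [vec, ← Pi.single_smul, smul_eq_mul]
          congr 1; ring
        simp only [this, mu_vec, S.k1, ite_self]
    | zero => simp
    | add x y _ _ hx hy => intro s; rw [smul_add, map_add, hx, hy, add_zero]
    | smul a x _ hx => intro s; rw [smul_smul, hx]
  simpa using this 1

theorem surj_of_lin (hr : Ord r) (hφ : ∀ u w, φ u = some w → φ w = some w)
    (h : LinRes S.L (Nn S φ)) : Surj r φ K := by
  intro i t
  obtain ⟨f, hf⟩ := chase S r hr h (quad_mem S φ) i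
    (fun ω => ∑ u : Rows φ, algebraMap K R (t (ω, u)) • vec S u.1) (fun ω =>
      ⟨fun a => ∑ u : Rows φ, if u.1.1 = a then Pi.single u.1.2 (algebraMap K R (t (ω, u))) else 0,
        by
        simp only [Finset.smul_sum]
        rw [Finset.sum_comm]
        refine Finset.sum_congr rfl fun u _ => ?_
        rw [Finset.sum_eq_single u.1.1 (fun a _ h => by simp [h.symm]) (by simp)]
        simp only [vec, ← Pi.single_smul, if_true, smul_eq_mul, mul_comm]⟩)
  refine ⟨fun z => S.c0 (f z.1 z.2), fun w => ?_⟩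
  have := mu_N S φ hφ w.2.1 (hf w.1)
  rw [map_sub, sub_eq_zero] at this
  simp only [TL, map_sum, map_zsmul, mu_xi, mu_vec] at this
  rw [Finset.sum_eq_single w.2 _ (by simp), if_pos w.2.2, Algebra.algebraMap_eq_smul_one,
    map_smul, S.k0, smul_eq_mul, mul_one] at this
  · rw [this, Dl]
    refine Finset.sum_congr rfl fun a _ => ?_
    rw [Finset.smul_sum]
    refine Finset.sum_congr rfl fun p _ => ?_
    split_ifs <;> simp
  · intro u _ hu
    rw [if_neg]
    rw [u.2]
    exact fun e => hu (Subtype.ext (Option.some.inj e))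

end Pool.Agent.H.MP_fc7d68_al
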