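import Mathlib
import Pool.Agent.H.MP_fc7d68_al.B

set_option linter.unusedSectionVars false

namespace Pool.Agent.H.MP_fc7d68_al

open Finset Matrix

theorem ex_mat {K A B : Type} [Field K] [Fintype A] [DecidableEq A] (f : (A → K) →ₗ[K] (B → K)) :
    ∃ M : Matrix A B K, ∀ v, v ᵥ* M = f v :=
  ⟨LinearMap.toMatrixRight' f, fun v => by
    rw [← Matrix.toLinearMapRight'_apply]
    simp⟩

theorem mat_ext {K A B : Type} [Field K] [Fintype A] [DecidableEq A] {M M' : Matrix A B K}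
    (h : ∀ v, v ᵥ* M = v ᵥ* M') : M = M' := by
  ext j k
  simpa using congrFun (h (Pi.single j 1)) k

theorem split {K A B : Type} [Field K] [Fintype A] [Fintype B] [DecidableEq A] [DecidableEq B]
    (Δ : Matrix A B K) (h : ∀ t, ∃ g, g ᵥ* Δ = t) :
    ∃ (b : ℕ) (E : Matrix (Fin b) A K) (G : Matrix A (Fin b) K) (Sc : Matrix B A K),
      E * Δ = 0 ∧ E * G = 1 ∧ Sc * Δ = 1 ∧ G * E + Δ * Sc = 1 := by
  obtain ⟨s, hs⟩ := Δ.vecMulLinear.exists_rightInverse_of_surjective
    (LinearMap.range_eq_top.2 h)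
  have hs' : ∀ t, s t ᵥ* Δ = t := fun t => LinearMap.congr_fun hs t
  let β := Module.finBasis K (LinearMap.ker Δ.vecMulLinear)
  have mem : ∀ v, (LinearMap.id - s ∘ₗ Δ.vecMulLinear : (A → K) →ₗ[K] (A → K)) v ∈ LinearMap.ker Δ.vecMulLinear := by
    intro v
    simp [hs']
  obtain ⟨E, hE⟩ := ex_mat ((LinearMap.ker Δ.vecMulLinear).subtype ∘ₗ β.equivFun.symm.toLinearMap)
  obtain ⟨G, hG⟩ := ex_mat (β.equivFun.toLinearMap ∘ₗ LinearMap.codRestrict _ _ mem)
  obtain ⟨Sc, hS⟩ := ex_mat s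
  have k : ∀ v, (β.equivFun.symm v : A → K) ᵥ* Δ = 0 := fun v => (β.equivFun.symm v).2
  refine ⟨_, E, G, Sc, mat_ext fun v => ?_, mat_ext fun v => ?_, mat_ext fun v => ?_,
    mat_ext fun v => ?_⟩
  · rw [← vecMul_vecMul, hE, vecMul_zero]
    exact k v
  · rw [← vecMul_vecMul, hE, hG, vecMul_one]
    simp only [LinearMap.comp_apply, LinearEquiv.coe_coe]
    rw [← LinearEquiv.eq_symm_apply]
    refine Subtype.ext ?_
    simp only [LinearMap.codRestrict_apply, LinearMap.sub_apply, LinearMap.id_apply,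
      LinearMap.comp_apply, Submodule.subtype_apply, vecMulLinear_apply, k, map_zero, sub_zero]
  · rw [← vecMul_vecMul, hS, hs', vecMul_one]
  · rw [vecMul_add, ← vecMul_vecMul, ← vecMul_vecMul, hG, hE, hS, vecMul_one]
    simp

variable {K R X : Type} [Field K] [CommRing R] [Algebra K R] [Fintype X] [DecidableEq X]
  (S : Sys K R X) (r : Fin 3 → Fin 3 → Bool)
variable {Q : Type} [Fintype Q] [DecidableEq Q] (φ : (Fin 3 × X) × Q → Option ((Fin 3 × X) × Q))

def Dm (Λ : Type) [CommRing Λ] (i : ℕ) : Matrix (Wd X (i + 1) × Q) (Wd X i × Rows φ) Λ :=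
  fun z w => ((∑ a, ∑ p, if φ (a, p) = some w.2.1 ∧ z = (pu a w.1, p) then sg r a.1 w.1.1
    else 0 : ℤ) : Λ)

theorem Dm_vm {Λ : Type} [CommRing Λ] {i : ℕ} (g : Wd X (i + 1) × Q → Λ) (w) :
    (g ᵥ* Dm r φ Λ i) w = Dl r φ g w := by
  simp only [vecMul, dotProduct, Dm, Dl, Int.cast_sum, Finset.mul_sum]
  rw [Finset.sum_comm]
  refine Finset.sum_congr rfl fun a _ => ?_
  rw [Finset.sum_comm]
  refine Finset.sum_congr rfl fun p _ => ?_
  rw [Finset.sum_eq_single (pu a w.1, p) (fun z _ h => by simp [h]) (by simp)]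
  split_ifs <;> simp_all [mul_comm]

theorem Dm_map (i : ℕ) : (Dm r φ K i).map (algebraMap K R) = Dm r φ R i := by
  ext z w
  simp only [Dm, Matrix.map_apply, map_intCast]

def Mm (ι : Type) [DecidableEq ι] (i : ℕ) : Matrix (Wd X (i + 1) × ι) (Wd X i × ι) R :=
  fun z w => ∑ a, if z = (ap a w.1, w.2) then sg r a.1 w.1.1 • S.ξ a else 0

theorem Mm_vm {ι : Type} [DecidableEq ι] [Fintype ι] {i : ℕ} (u : Wd X (i + 1) × ι → R) (w) :
    (u ᵥ* Mm S r ι i) w = TR S r (fun z k => u (z, k)) w.1 w.2 := by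
  simp only [vecMul, dotProduct, Mm, TR, Finset.mul_sum, Finset.sum_apply, Pi.smul_apply]
  rw [Finset.sum_comm]
  refine Finset.sum_congr rfl fun a _ => ?_
  rw [Finset.sum_eq_single (ap a w.1, w.2) (fun z _ h => by simp [h]) (by simp)]
  simp only [if_true, smul_eq_mul]
  rw [mul_comm, smul_mul_assoc]

theorem Mm_L {ι : Type} [DecidableEq ι] (i : ℕ) (z w) : Mm S r ι i z w ∈ S.L := by
  refine Submodule.sum_mem _ fun a _ => ?_
  split_ifs
  · exact zsmul_mem (Submodule.subset_span (Set.mem_range_self a)) _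
  · exact Submodule.zero_mem _

theorem MM (hr : Ord r) {ι : Type} [DecidableEq ι] [Fintype ι] {i : ℕ}
    (u : Wd X (i + 2) × ι → R) : (u ᵥ* Mm S r ι (i + 1)) ᵥ* Mm S r ι i = 0 := by
  funext w
  rw [Mm_vm]
  simp only [Mm_vm]
  exact congrFun (TR_TR S r hr (fun z k => u (z, k)) w.1) w.2

theorem exM (hr : Ord r) {ι : Type} [DecidableEq ι] [Fintype ι] {i : ℕ}
    (u : Wd X (i + 1) × ι → R) (h : u ᵥ* Mm S r ι i = 0) : ∃ w, w ᵥ* Mm S r ι (i + 1) = u := by
  obtain ⟨g, hg⟩ := exR S r hr (fun z k => u (z, k)) fun ω => funext fun k => by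
    have := congrFun h (ω, k)
    rwa [Mm_vm] at this
  refine ⟨fun z => g z.1 z.2, funext fun w => ?_⟩
  rw [Mm_vm]
  exact congrFun (hg w.1) w.2

def op (r : Fin 3 → Fin 3 → Bool) : Fin 3 → Fin 3 → Bool := fun i j => r j i

theorem op_ord (hr : Ord r) : Ord (op r) := ⟨hr.1, fun i j h => hr.2 j i h.symm⟩

theorem DM_comm {i : ℕ} (u : Wd X (i + 2) × Q → R) :
    (u ᵥ* Dm r φ R (i + 1)) ᵥ* Mm S (op r) _ i = (u ᵥ* Mm S (op r) Q (i + 1)) ᵥ* Dm r φ R i := by
  funext w
  rw [Mm_vm, Dm_vm]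
  simp only [Mm_vm, Dm_vm, TR, Dl, Finset.sum_apply, Pi.smul_apply, Finset.smul_sum]
  rw [Finset.sum_comm]
  refine Finset.sum_congr rfl fun a _ => ?_
  rw [Finset.sum_comm]
  refine Finset.sum_congr rfl fun p _ => ?_
  split_ifs
  · refine Finset.sum_congr rfl fun b _ => ?_
    have e : pu a (ap b w.1) = ap b (pu a w.1) := Subtype.ext (app_push b a _).symm
    have s1 : sg r a.1 (ap b w.1).1 = (if r b.1 a.1 then -1 else 1) * sg r a.1 w.1.1 := by
      simp only [ap, app, sg_rev, sg_push]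
    have s2 : sg (op r) b.1 (pu a w.1).1 = (if r b.1 a.1 then -1 else 1) * sg (op r) b.1 w.1.1 :=
      sg_push _ _ _ _
    rw [e, s1, s2, smul_comm (S.ξ b), smul_smul, smul_smul]
    congr 1; ring
  · simp

theorem lin_of_surj (hr : Ord r) (hφ : ∀ u w, φ u = some w → φ w = some w)
    (h : Surj r φ K) : LinRes S.L (Nn S φ) := by
  classical
  have hr' := op_ord r hr
  choose b E0 G0 S0 a1 a2 a3 a4 using fun i => split (Dm r φ K i) fun t => by
    obtain ⟨g, hg⟩ := h i t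
    exact ⟨g, funext fun w => by rw [Dm_vm, hg]⟩
  let E := fun i => (E0 i).map (algebraMap K R)
  let G := fun i => (G0 i).map (algebraMap K R)
  let Sc := fun i => (S0 i).map (algebraMap K R)
  have b1 : ∀ i v, (v ᵥ* E i) ᵥ* Dm r φ R i = 0 := by
    intro i v
    rw [vecMul_vecMul, ← Dm_map (K := K), ← Matrix.map_mul, a1]
    simp
  have b2 : ∀ i v, (v ᵥ* E i) ᵥ* G i = v := by
    intro i v
    rw [vecMul_vecMul, ← Matrix.map_mul, a2]
    simp
  have b3 : ∀ i v, (v ᵥ* Sc i) ᵥ* Dm r φ R i = v := by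
    intro i v
    rw [vecMul_vecMul, ← Dm_map (K := K), ← Matrix.map_mul, a3]
    simp
  have b4 : ∀ i u, u ᵥ* Dm r φ R i = 0 → (u ᵥ* G i) ᵥ* E i = u := by
    intro i u hu
    have : G i * E i + Dm r φ R i * Sc i = 1 := by
      rw [← Dm_map (K := K), ← Matrix.map_mul, ← Matrix.map_mul,
        ← Matrix.map_add _ (map_add _), a4]
      simp
    have h2 := congrArg (u ᵥ* ·) this
    simpa only [vecMul_add, ← vecMul_vecMul, hu, zero_vecMul, add_zero, vecMul_one] using h2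
  have fix : ∀ i (w : Wd X (i + 1) × Q → R) (z : Wd X (i + 1) × Rows φ → R),
      w ᵥ* Dm r φ R i = z ᵥ* Mm S (op r) _ i →
      ∃ w', w' ᵥ* Dm r φ R i = 0 ∧ w' ᵥ* Mm S (op r) Q i = w ᵥ* Mm S (op r) Q i := by
    intro i w z hz
    refine ⟨w - (z ᵥ* Sc (i + 1)) ᵥ* Mm S (op r) Q (i + 1), ?_, ?_⟩
    · rw [sub_vecMul, ← DM_comm, b3, hz, sub_self]
    · rw [sub_vecMul, MM S _ hr', sub_zero]
  have cor : ∀ i (u : Wd X (i + 1) × Q → R), u ᵥ* Dm r φ R i = 0 → u ᵥ* Mm S (op r) Q i = 0 →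
      ∃ w', w' ᵥ* Dm r φ R (i + 1) = 0 ∧ w' ᵥ* Mm S (op r) Q (i + 1) = u := by
    intro i u h1 h2
    obtain ⟨w, rfl⟩ := exM S _ hr' u h2
    obtain ⟨z, hz⟩ := exM S _ hr' (w ᵥ* Dm r φ R (i + 1)) (by rw [DM_comm, h1])
    exact fix _ w z hz.symm
  let Mq : Matrix (Wd X 1 × Q) Q R := fun z k => Mm S (op r) Q 0 z (w0, k)
  have hq : ∀ u k, (u ᵥ* Mq) k = (u ᵥ* Mm S (op r) Q 0) (w0, k) := fun _ _ => rfl
  have hq2 : ∀ u, u ᵥ* Mq = ∑ a, ∑ p, u (pu a w0, p) • vec S (a, p) := by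
    intro u
    funext k
    rw [hq, Mm_vm]
    simp [TR, sg_w0, ap_w0, vec, Pi.single_apply, mul_comm]
  have hq0 : ∀ u, u ᵥ* Mq = 0 ↔ u ᵥ* Mm S (op r) Q 0 = 0 := by
    intro u
    refine ⟨fun h => funext fun w => ?_, fun h => funext fun k => by rw [hq, h]; rfl⟩
    obtain ⟨ω, k⟩ := w
    rw [eq_w0 ω, ← hq, h]; rfl
  have hd0 : ∀ u : Wd X 1 × Q → R, ∀ w : Rows φ, (u ᵥ* Dm r φ R 0) (w0, w) =
      ∑ a, ∑ p, if φ (a, p) = some w.1 then u (pu a w0, p) else 0 := by
    intro u w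
    rw [Dm_vm]
    simp [Dl, sg_w0]
  have lm : ∀ {A B C : Type} [Fintype B] (U : Matrix A B K) (M : Matrix B C R),
      (∀ j k, M j k ∈ S.L) → ∀ j k, (U.map (algebraMap K R) * M) j k ∈ S.L := by
    intro A B C _ U M hM j k
    simp only [Matrix.mul_apply, Matrix.map_apply, ← Algebra.smul_def]
    exact Submodule.sum_mem _ fun _ _ => Submodule.smul_mem _ _ (hM _ _)
  have rm : ∀ {A B C : Type} [Fintype B] (U : Matrix B C K) (M : Matrix A B R),
      (∀ j k, M j k ∈ S.L) → ∀ j k, (M * U.map (algebraMap K R)) j k ∈ S.L := by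
    intro A B C _ U M hM j k
    simp only [Matrix.mul_apply, Matrix.map_apply]
    refine Submodule.sum_mem _ fun _ _ => ?_
    rw [mul_comm, ← Algebra.smul_def]
    exact Submodule.smul_mem _ _ (hM _ _)
  have gen : ∀ i {C : Type} (m : Matrix (Fin (b i)) C R),
      (∀ v, v ᵥ* m = 0 ↔ (v ᵥ* E i) ᵥ* Mm S (op r) Q i = 0) →
      LinearMap.ker m.vecMulLinear =
        LinearMap.range (E (i + 1) * Mm S (op r) Q (i + 1) * G i).vecMulLinear := by
    intro i C m hm
    ext v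
    rw [LinearMap.mem_ker, vecMulLinear_apply, hm]
    constructor
    · intro hv
      obtain ⟨w, h1, h2⟩ := cor i _ (b1 i v) hv
      refine ⟨w ᵥ* G (i + 1), ?_⟩
      rw [vecMulLinear_apply, ← vecMul_vecMul, ← vecMul_vecMul, b4 _ _ h1, h2, b2]
    · rintro ⟨y, rfl⟩
      rw [vecMulLinear_apply, ← vecMul_vecMul, ← vecMul_vecMul, b4, MM S _ hr']
      rw [← DM_comm, b1, zero_vecMul]
  have inR : ∀ w : Wd X 1 × Q → R, w ᵥ* Dm r φ R 0 = 0 →
      w ᵥ* Mq ∈ LinearMap.range (E 0 * Mq).vecMulLinear := by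
    intro w hw
    exact ⟨w ᵥ* G 0, by rw [vecMulLinear_apply, ← vecMul_vecMul, b4 _ _ hw]⟩
  have pinj : ∀ a a' : Fin 3 × X, pu a (w0 : Wd X 0) = pu a' w0 ↔ a = a' :=
    fun a a' => ⟨fun h => push_inj' (congrArg Subtype.val h), fun h => by rw [h]⟩
  let δ : (Fin 3 × X) × Q → R → Wd X 1 × Q → R := fun u s => Pi.single (pu u.1 w0, u.2) s
  have δq : ∀ u s, δ u s ᵥ* Mq = s • vec S u := by
    intro u s
    rw [hq2, ← Finset.sum_product', Finset.sum_eq_single u _ (by simp)]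
    · simp [δ]
    · intro v _ hv
      rw [show δ u s (pu v.1 w0, v.2) = 0 from Pi.single_eq_of_ne (by
        simp only [ne_eq, Prod.mk.injEq, pinj]
        exact fun e => hv (Prod.ext e.1 e.2)) _, zero_smul]
  have δd : ∀ u s (w : Rows φ), (δ u s ᵥ* Dm r φ R 0) (w0, w) =
      if φ u = some w.1 then s else 0 := by
    intro u s w
    rw [hd0, ← Finset.sum_product', Finset.sum_eq_single u _ (by simp)]
    · simp [δ]
    · intro v _ hv
      rw [show δ u s (pu v.1 w0, v.2) = 0 from Pi.single_eq_of_ne (by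
        simp only [ne_eq, Prod.mk.injEq, pinj]
        exact fun e => hv (Prod.ext e.1 e.2)) _, ite_self]
  refine ⟨b, E 0 * Mq, fun i => E (i + 1) * Mm S (op r) Q (i + 1) * G i,
    lm _ _ fun j k => Mm_L S _ _ _ _, fun i => rm _ _ (lm _ _ (Mm_L S _ _)), ?_,
    gen 0 _ fun v => by rw [← vecMul_vecMul, hq0], fun i => gen (i + 1) _ fun v => ?_⟩
  · refine le_antisymm ?_ (Submodule.span_le.2 ?_)
    · rintro _ ⟨v, rfl⟩
      rw [vecMulLinear_apply, ← vecMul_vecMul]
      have hz := b1 0 v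
      generalize v ᵥ* E 0 = u at hz
      have e1 : ∑ a, ∑ p, u (pu a w0, p) • (φ (a, p)).elim 0 (vec S) = 0 := by
        have : ∀ a p, u (pu a w0, p) • (φ (a, p)).elim 0 (vec S) =
            ∑ w : Rows φ, (if φ (a, p) = some w.1 then u (pu a w0, p) else 0) • vec S w.1 := by
          intro a p
          cases h : φ (a, p) with
          | none => simp
          | some w =>
            rw [Finset.sum_eq_single ⟨w, hφ _ _ h⟩ _ (by simp)]
            · simp
            · intro w' _ hw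
              rw [if_neg (fun e => hw (Subtype.ext (Option.some.inj e).symm)), zero_smul]
        simp only [this]
        rw [← Finset.sum_product', Finset.sum_comm]
        refine Finset.sum_eq_zero fun w _ => ?_
        rw [← Finset.sum_smul, Finset.sum_product, ← hd0, hz]
        simp
      rw [hq2, ← sub_zero (∑ a, _), ← e1, ← Finset.sum_sub_distrib]
      refine Submodule.sum_mem _ fun a _ => ?_
      rw [← Finset.sum_sub_distrib]
      refine Submodule.sum_mem _ fun p _ => ?_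
      rw [← smul_sub]
      exact Submodule.smul_mem _ _ (Submodule.subset_span (Or.inl ⟨(a, p), rfl⟩))
    · rintro _ (⟨u, rfl⟩ | ⟨⟨a, a', p⟩, rfl⟩)
      · cases h : φ u with
        | none =>
          have := inR (δ u 1) (funext fun w => by
            obtain ⟨ω, w⟩ := w
            rw [eq_w0 ω, δd, h]; simp)
          simpa [δq, rel, h] using this
        | some u' =>
          have := inR (δ u 1 - δ u' 1) (funext fun w => by
            obtain ⟨ω, w⟩ := w
            rw [eq_w0 ω, sub_vecMul, Pi.sub_apply, δd, δd, h, hφ _ _ h]; simp)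
          simpa [sub_vecMul, δq, rel, h] using this
      · obtain ⟨e, he⟩ := base0 (X := X) (N := Rows φ → R) fun c w =>
          if c = a ∧ φ (a', p) = some w.1 then 1 else 0
        obtain ⟨w', h1, h2⟩ := fix 0 (δ (a', p) (S.ξ a)) (fun z => e z.1 z.2) (funext fun w => by
          obtain ⟨ω, w⟩ := w
          rw [eq_w0 ω, δd, Mm_vm]
          simp only [TR, sg_w0, ap_w0, he, Finset.sum_apply, Pi.smul_apply, one_smul]
          rw [Finset.sum_eq_single a (fun c _ hc => by simp [hc]) (by simp)]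
          simp)
        have h3 : w' ᵥ* Mq = δ (a', p) (S.ξ a) ᵥ* Mq := funext fun k => by rw [hq, hq, h2]
        have := inR w' h1
        rw [h3, δq] at this
        simpa [vec, ← Pi.single_smul] using this
  · rw [← vecMul_vecMul, ← vecMul_vecMul]
    constructor
    · intro hv
      rw [← b4 i ((v ᵥ* E (i + 1)) ᵥ* Mm S (op r) Q (i + 1)), hv, zero_vecMul]
      rw [← DM_comm, b1, zero_vecMul]
    · intro hv
      rw [hv, zero_vecMul]

end Pool.Agent.H.MP_fc7d68_al
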