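import Mathlib
import Pool.Agent.H.MP_fc7d68_al.C

set_option linter.unusedSectionVars false

namespace Pool.Agent.H.MP_fc7d68_al

open Finset Matrix

theorem surj_of_inj {K A B : Type} [Field K] [Fintype A] [Fintype B] [DecidableEq B]
    (M : Matrix A B K) (h : ∀ l, M *ᵥ l = 0 → l = 0) (t : B → K) : ∃ g, g ᵥ* M = t := by
  classical
  obtain ⟨L, hL⟩ := (Matrix.toLin' M).exists_leftInverse_of_injective
    (LinearMap.ker_eq_bot'.2 h)
  have : LinearMap.toMatrix' L * M = 1 := by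
    apply Matrix.toLin'.injective
    rw [Matrix.toLin'_mul, Matrix.toLin'_toMatrix', hL, Matrix.toLin'_one]
  exact ⟨t ᵥ* LinearMap.toMatrix' L, by rw [vecMul_vecMul, this, vecMul_one]⟩

variable {X Q : Type} [Fintype X] [DecidableEq X] [Fintype Q] [DecidableEq Q]
  (φ : (Fin 3 × X) × Q → Option ((Fin 3 × X) × Q))

inductive AccT : Q → W X → Prop
  | kill (a q ω) : a.1 ≠ 2 → φ (a, q) = some (a, q) → (∀ h p, φ ((2, h), p) ≠ some (a, q)) →
      AccT q (push a ω)
  | step (a q ω h p) : a.1 ≠ 2 → φ ((2, h), p) = some (a, q) → AccT p (push (2, h) ω) →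
      AccT q (push a ω)

structure Good (st : X) (u0 v0 : Q) : Prop where
  p1 : ∀ u w, φ u = some w → φ w = some w
  p2 : ∀ a p w, a.1 ≠ 2 → φ (a, p) = some w → w = (a, p)
  p3 : ∀ a b p w w', a.1 ≠ 2 → b.1 ≠ 2 → φ (a, p) = some w → φ (b, p) = some w' → a.1 = b.1
  p4 : ∀ h p w, φ ((2, h), p) = some w → w.1.1 = 2 →
    w = ((2, st), u0) ∧ h = st ∧ (p = u0 ∨ p = v0)
  p5 : ∀ h p h' p' w, φ ((2, h), p) = some w → φ ((2, h'), p') = some w → w.1.1 ≠ 2 →
    h = h' ∧ p = p'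
  p6 : φ ((2, st), u0) = some ((2, st), u0)
  p7 : φ ((2, st), v0) = some ((2, st), u0)

variable {φ} {st : X} {u0 v0 : Q} (H : Good φ st u0 v0) (r : Fin 3 → Fin 3 → Bool)
  (K : Type) [Field K]
include H

theorem sg_ne {K : Type} [Field K] (i : Fin 3) (ω : W X) {x : K} (h : sg r i ω • x = 0) :
    x = 0 := by
  have := congrArg (sg r i ω • ·) h
  simpa only [smul_smul, sg_sq, one_smul, smul_zero] using this

theorem not_surj (ω0 : W X) (hu : AccT φ u0 (push (2, st) ω0)) (hv : AccT φ v0 (push (2, st) ω0)) :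
    ¬ Surj r φ K := by
  intro hs
  obtain ⟨g, hg⟩ := hs (len ω0) fun w => if w.2.1.1.1 = 2 then 1 else 0
  have one : ∀ (a q) (ω : Wd X (len ω0)), a.1 ≠ 2 → φ (a, q) = some (a, q) →
      (∀ h p, φ ((2, h), p) = some (a, q) → g (pu (2, h) ω, p) = 0) → g (pu a ω, q) = 0 := by
    intro a q ω h1 h2 h3
    have := hg (ω, ⟨_, h2⟩)
    rw [if_neg h1, Dl, ← Finset.sum_product', Finset.sum_eq_single (a, q) _ (by simp),
      if_pos h2] at this
    · exact sg_ne H r _ _ this
    · rintro ⟨⟨j, x⟩, p⟩ _ hne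
      split_ifs with e
      · by_cases hj : j = 2
        · subst hj
          rw [h3 x p e, smul_zero]
        · exact absurd (H.p2 _ _ _ hj e).symm hne
      · rfl
  have key : ∀ q ω, AccT φ q ω → ∀ h : len ω = len ω0 + 1, g (⟨ω, h⟩, q) = 0 := by
    intro q ω ha
    induction ha with
    | kill a q ω h1 h2 h3 =>
      intro h
      exact one a q ⟨ω, by rw [len_push] at h; omega⟩ h1 h2 fun h p e => absurd e (h3 h p)
    | step a q ω h p h1 h2 _ ih =>
      intro hl
      refine one a q ⟨ω, by rw [len_push] at hl; omega⟩ h1 (H.p1 _ _ h2) fun h' p' e => ?_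
      obtain ⟨rfl, rfl⟩ := H.p5 _ _ _ _ _ h2 e h1
      exact ih _
  have := hg (⟨ω0, rfl⟩, ⟨_, H.p6⟩)
  rw [if_pos rfl, Dl] at this
  refine zero_ne_one (Eq.trans (Eq.symm ?_) this)
  refine Finset.sum_eq_zero fun a _ => Finset.sum_eq_zero fun p _ => ?_
  obtain ⟨j, x⟩ := a
  split_ifs with e
  · by_cases hj : j = 2
    · subst hj
      obtain ⟨-, rfl, rfl | rfl⟩ := H.p4 _ _ _ e rfl
      · rw [show g (pu (2, x) ⟨ω0, rfl⟩, p) = 0 from key _ _ hu _, smul_zero]
      · rw [show g (pu (2, x) ⟨ω0, rfl⟩, p) = 0 from key _ _ hv _, smul_zero]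
    · have := H.p2 _ _ _ hj e
      exact absurd (congrArg (fun z => z.1.1) this).symm hj
  · rfl

theorem two {i : ℕ} (l : Wd X i × Rows φ → K) (hl : Dm r φ K i *ᵥ l = 0) (a p) (w : Rows φ)
    (ω : Wd X i) (h1 : φ (a, p) = some w.1) (h2 : l (ω, w) ≠ 0) :
    ∃ (a' : Fin 3 × X) (ω' : Wd X i) (w' : Rows φ), a'.1 ≠ a.1 ∧ push a' ω'.1 = push a ω.1 ∧
      φ (a', p) = some w'.1 ∧ l (ω', w') ≠ 0 := by
  by_contra hn
  push Not at hn
  have := congrFun hl (pu a ω, p)
  simp only [mulVec, dotProduct, Pi.zero_apply] at this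
  rw [Finset.sum_eq_single (ω, w) _ (by simp), Dm, ← Finset.sum_product',
    Finset.sum_eq_single (a, p) _ (by simp), if_pos ⟨h1, rfl⟩, ← zsmul_eq_mul] at this
  · exact h2 (sg_ne H r _ _ this)
  · rintro ⟨b, p'⟩ _ hne
    rw [if_neg]
    rintro ⟨-, e⟩
    obtain ⟨e1, e2⟩ := Prod.mk.inj e
    exact hne (Prod.ext (push_inj' (congrArg Subtype.val e1)).symm e2.symm)
  · rintro ⟨ω', w'⟩ _ hne
    by_cases h0 : l (ω', w') = 0
    · rw [h0, mul_zero]
    · rw [Dm, Finset.sum_eq_zero, Int.cast_zero, zero_mul]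
      intro b _
      refine Finset.sum_eq_zero fun p' _ => if_neg ?_
      rintro ⟨e0, e⟩
      obtain ⟨e1, rfl⟩ := Prod.mk.inj e
      have e2 : push a ω.1 = push b ω'.1 := congrArg Subtype.val e1
      by_cases hb : b.1 = a.1
      · obtain ⟨rfl, e3⟩ := push_inj hb.symm e2
        rw [h1] at e0
        exact hne (Prod.ext (Subtype.ext e3.symm) (Subtype.ext (Option.some.inj e0).symm))
      · exact h0 (hn b ω' w' hb e2.symm e0)

theorem surj_of (hn : ∀ ω0 : W X, AccT φ u0 (push (2, st) ω0) →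
    ¬ AccT φ v0 (push (2, st) ω0)) : Surj r φ K := by
  intro i t
  suffices h : ∃ g, g ᵥ* Dm r φ K i = t by
    obtain ⟨g, hg⟩ := h
    exact ⟨g, fun w => by rw [← Dm_vm, hg]⟩
  refine surj_of_inj _ (fun l hl => ?_) t
  have bd : ∀ ω : Wd X i, (ω.1 2).length ≤ i := fun ω =>
    (Finset.single_le_sum (f := fun j => (ω.1 j).length) (fun _ _ => Nat.zero_le _)
      (mem_univ 2)).trans (le_of_eq ω.2)
  have ln : ∀ (a : Fin 3 × X) (h : X) (ω ω' : W X), a.1 ≠ 2 → push a ω = push (2, h) ω' →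
      (ω 2).length = (ω' 2).length + 1 := by
    intro a h ω ω' ha e
    have := congrArg List.length (congrFun e 2)
    rw [push_len, push_len] at this
    simpa [ha.symm] using this
  have fw : ∀ (n : ℕ) (h p) (w : Rows φ) (ω : Wd X i), i - (ω.1 2).length = n →
      φ ((2, h), p) = some w.1 → l (ω, w) ≠ 0 → AccT φ p (push (2, h) ω.1) := by
    intro n
    induction n using Nat.strong_induction_on with
    | _ n ih =>
      intro h p w ω e h1 h2
      obtain ⟨a', ω', w', k1, k2, k3, k4⟩ := two H r K l hl _ _ w ω h1 h2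
      have k5 := H.p2 _ _ _ k1 k3
      rw [← k2]
      by_cases hx : ∃ h' p', φ ((2, h'), p') = some (a', p)
      · obtain ⟨h', p', hx⟩ := hx
        have := ln _ _ _ _ k1 k2
        have := bd ω'
        exact .step _ _ _ h' p' k1 hx (ih _ (by omega) h' p' w' ω' rfl (k5 ▸ hx) k4)
      · push Not at hx
        exact .kill _ _ _ k1 (k5 ▸ k3) hx
  have bw : ∀ (n : ℕ) (w : Rows φ) (ω : Wd X i), (ω.1 2).length = n → l (ω, w) ≠ 0 → False := by
    intro n
    induction n using Nat.strong_induction_on with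
    | _ n ih =>
      rintro ⟨⟨⟨j, x⟩, p⟩, hw⟩ ω e h2
      by_cases hj : j = 2
      · subst hj
        obtain ⟨k, -⟩ := H.p4 _ _ _ hw rfl
        exact hn ω.1 (fw _ _ _ _ ω rfl (H.p6.trans (congrArg some k.symm)) h2)
          (fw _ _ _ _ ω rfl (H.p7.trans (congrArg some k.symm)) h2)
      · obtain ⟨⟨j', x'⟩, ω', w', k1, k2, k3, k4⟩ := two H r K l hl _ _ ⟨_, hw⟩ ω hw h2
        by_cases hj' : j' = 2
        · subst hj'
          have := ln _ _ _ _ hj k2.symm
          exact ih _ (by omega) w' ω' rfl k4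
        · exact k1 (H.p3 _ _ _ _ _ hj' hj k3 hw)
  funext w
  by_contra h
  exact bw _ w.2 w.1 rfl h

end Pool.Agent.H.MP_fc7d68_al
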