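import Mathlib
import Pool.Agent.H.MP_fc7d68_al.D

set_option linter.unusedSectionVars false

namespace Pool.Agent.H.MP_fc7d68_al

variable (T0 T1 : List (List ℕ))

def tile (b i : ℕ) : List ℕ := (if b = 0 then T0 else T1).getD i []

def st (b i j : ℕ) : ℕ := Nat.pair b (Nat.pair i j)

def nx (b i j : ℕ) : ℕ := if j < (tile T0 T1 b i).length then st b (i + 1) j else st b 0 1

def trS (b i j c x : ℕ) : Option (Option ℕ) :=
  if 2 ≤ b then none else
  if i = 0 then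
    (if j = 2 ∧ c = 1 ∧ x = 0 then some none else
     if j = 1 ∧ c = 0 ∧ x = 0 then some (some (st b 0 2)) else
     if j ≤ 1 ∧ c = 0 ∧ 0 < x ∧ x ≤ T0.length then some (some (nx T0 T1 b (x - 1) 0)) else none)
  else if c = 1 ∧ j < (tile T0 T1 b (i - 1)).length ∧ x = (tile T0 T1 b (i - 1)).getD j 0 + 1 then
    some (some (nx T0 T1 b (i - 1) (j + 1))) else none

def tr (q c x : ℕ) : Option (Option ℕ) :=
  trS T0 T1 q.unpair.1 q.unpair.2.unpair.1 q.unpair.2.unpair.2 c x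

def mm : ℕ := T0.length + (T0.flatten ++ T1.flatten).length + (T0.flatten ++ T1.flatten).sum + 3

def ph (j x p : ℕ) : Option (ℕ × ℕ × ℕ) :=
  if j = 2 then
    (if x = 0 then (if p = 0 ∨ p = 2 then some (2, 0, 0) else none) else
     if tr T0 T1 (x - 1).unpair.1 (x - 1).unpair.2.unpair.1 (x - 1).unpair.2.unpair.2 =
        some (some p) ∧ (x - 1).unpair.1 < mm T0 T1 ^ 4 then
       some ((x - 1).unpair.2.unpair.1, (x - 1).unpair.2.unpair.2, (x - 1).unpair.1) else none)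
  else if tr T0 T1 p j x = none then none else some (j, x, p)

theorem tr_st (b i j c x : ℕ) : tr T0 T1 (st b i j) c x = trS T0 T1 b i j c x := by
  simp [tr, st]

theorem st_inj {b i j b' i' j' : ℕ} : st b i j = st b' i' j' ↔ b = b' ∧ i = i' ∧ j = j' := by
  simp [st]

variable {T0 T1}

theorem tr_cases {q c x : ℕ} {o} (h : tr T0 T1 q c x = some o) : ∃ b < 2,
    (q = st b 0 2 ∧ c = 1 ∧ x = 0 ∧ o = none) ∨
    (q = st b 0 1 ∧ c = 0 ∧ x = 0 ∧ o = some (st b 0 2)) ∨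
    (∃ j ≤ 1, ∃ i < T0.length, q = st b 0 j ∧ c = 0 ∧ x = i + 1 ∧ o = some (nx T0 T1 b i 0)) ∨
    (∃ i, ∃ j < (tile T0 T1 b i).length, q = st b (i + 1) j ∧ c = 1 ∧
      x = (tile T0 T1 b i).getD j 0 + 1 ∧ o = some (nx T0 T1 b i (j + 1))) := by
  obtain ⟨b, i, j, rfl⟩ : ∃ b i j, q = st b i j :=
    ⟨q.unpair.1, q.unpair.2.unpair.1, q.unpair.2.unpair.2, by simp [st]⟩
  rw [tr_st, trS] at h
  split_ifs at h with h1 h2 h3 h4 h5 h6
  · obtain ⟨rfl, rfl, rfl⟩ := h3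
    exact ⟨b, by omega, .inl ⟨by rw [h2], rfl, rfl, (Option.some.inj h).symm⟩⟩
  · obtain ⟨rfl, rfl, rfl⟩ := h4
    exact ⟨b, by omega, .inr (.inl ⟨by rw [h2], rfl, rfl, (Option.some.inj h).symm⟩)⟩
  · exact ⟨b, by omega, .inr (.inr (.inl ⟨j, h5.1, x - 1, by omega, by rw [h2], h5.2.1, by omega,
      (Option.some.inj h).symm⟩))⟩
  · exact ⟨b, by omega, .inr (.inr (.inr ⟨i - 1, j, h6.2.1, by congr 1; omega, h6.1, h6.2.2,
      (Option.some.inj h).symm⟩))⟩

theorem tile_sub {b i z : ℕ} (h : z ∈ tile T0 T1 b i) : z ∈ T0.flatten ++ T1.flatten := by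
  have : ∀ T : List (List ℕ), z ∈ T.getD i [] → z ∈ T.flatten := by
    intro T h
    rcases Nat.lt_or_ge i T.length with hi | hi
    · rw [List.getD_eq_getElem _ _ hi] at h
      exact List.mem_flatten.2 ⟨_, List.getElem_mem hi, h⟩
    · rw [List.getD_eq_default _ _ hi] at h
      cases h
  unfold tile at h
  split_ifs at h
  · exact List.mem_append_left _ (this _ h)
  · exact List.mem_append_right _ (this _ h)

theorem tile_lt {b i z : ℕ} (h : z ∈ tile T0 T1 b i) : z + 1 < mm T0 T1 := by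
  have := List.single_le_sum (fun _ _ => Nat.zero_le _) z (tile_sub h)
  unfold mm; omega

theorem tile_len (hl : T0.length = T1.length) {b i j : ℕ} (h : j < (tile T0 T1 b i).length) :
    i < T0.length ∧ j < mm T0 T1 := by
  have : ∀ T : List (List ℕ), j < (T.getD i []).length → i < T.length ∧ j < T.flatten.length := by
    intro T h
    rcases Nat.lt_or_ge i T.length with hi | hi
    · rw [List.getD_eq_getElem _ _ hi] at h
      exact ⟨hi, h.trans_le (List.sublist_flatten_of_mem (List.getElem_mem hi)).length_le⟩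
    · rw [List.getD_eq_default _ _ hi] at h
      cases h
  unfold tile at h
  unfold mm
  rw [List.length_append]
  split_ifs at h
  · have := this _ h; omega
  · have := this _ h; omega

theorem pair_lt {x y m : ℕ} (hx : x < m) (hy : y < m) : Nat.pair x y < m ^ 2 :=
  (Nat.pair_lt_max_add_one_sq x y).trans_le (Nat.pow_le_pow_left (by omega) 2)

theorem mm3 : 3 ≤ mm T0 T1 := by unfold mm; omega

theorem st_lt {b i j m : ℕ} (hb : b < m) (hi : i < m) (hj : j < m) : st b i j < m ^ 4 := by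
  have := pair_lt (x := b) (hb.trans_le (Nat.le_self_pow two_ne_zero m)) (pair_lt hi hj)
  rwa [← pow_mul] at this

theorem nx_lt (hl : T0.length = T1.length) {b : ℕ} (hb : b < 2) (i j : ℕ) :
    nx T0 T1 b i j < mm T0 T1 ^ 4 := by
  have := mm3 (T0 := T0) (T1 := T1)
  unfold nx
  split_ifs with h
  · have h2 := tile_len hl h
    exact st_lt (by omega) (by unfold mm; omega) h2.2
  · exact st_lt (by omega) (by omega) (by omega)

theorem tr_rng (hl : T0.length = T1.length) {q c x : ℕ} {o} (h : tr T0 T1 q c x = some o) :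
    c < 2 ∧ x < mm T0 T1 ∧ ∀ p, o = some p → p < mm T0 T1 ^ 4 := by
  have := mm3 (T0 := T0) (T1 := T1)
  obtain ⟨b, hb, ⟨-, rfl, rfl, rfl⟩ | ⟨-, rfl, rfl, rfl⟩ | ⟨j, -, i, hi, -, rfl, rfl, rfl⟩ |
    ⟨i, j, hj, -, rfl, rfl, rfl⟩⟩ := tr_cases h
  · exact ⟨by omega, by omega, by simp⟩
  · refine ⟨by omega, by omega, ?_⟩
    rintro p ⟨⟩
    exact st_lt (by omega) (by omega) (by omega)
  · refine ⟨by omega, by unfold mm; omega, ?_⟩
    rintro p ⟨⟩
    exact nx_lt hl hb _ _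
  · refine ⟨by omega, tile_lt (b := b) (i := i) ?_, ?_⟩
    · rw [List.getD_eq_getElem _ _ hj]; exact List.getElem_mem hj
    · rintro p ⟨⟩
      exact nx_lt hl hb _ _

theorem tr_side {q c x c' x' : ℕ} {o o'} (h : tr T0 T1 q c x = some o)
    (h' : tr T0 T1 q c' x' = some o') : c = c' := by
  obtain ⟨b, hb, ⟨e, rfl, -⟩ | ⟨e, rfl, -⟩ | ⟨j, hj, i, hi, e, rfl, -⟩ |
    ⟨i, j, hj, e, rfl, -⟩⟩ := tr_cases h <;>
  obtain ⟨b', hb', ⟨e', rfl, -⟩ | ⟨e', rfl, -⟩ | ⟨j', hj', i', hi', e', rfl, -⟩ |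
    ⟨i', j', hj', e', rfl, -⟩⟩ := tr_cases h' <;>
  first | rfl | (rw [e, st_inj] at e'; omega)

variable (T0 T1)

inductive AccN : ℕ → List ℕ → List ℕ → Prop
  | k1 (q x s w) : tr T0 T1 q 1 x = some none → AccN q s (x :: w)
  | s0 (q x p s w) : tr T0 T1 q 0 x = some (some p) → AccN p s w → AccN q (x :: s) w
  | s1 (q x p s w) : tr T0 T1 q 1 x = some (some p) → AccN p s w → AccN q s (x :: w)

def Fn (b : ℕ) (pd : List ℕ) (ne : Prop) (s w : List ℕ) : Prop :=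
  ∃ σ s' w', (∀ i ∈ σ, i < T0.length) ∧ (ne → σ ≠ []) ∧ s = σ.map (· + 1) ++ 0 :: s' ∧
    w = (pd ++ σ.flatMap (tile T0 T1 b)).map (· + 1) ++ 0 :: w'

def Inv (q : ℕ) (s w : List ℕ) : Prop :=
  ∀ b, (q = st b 0 2 → ∃ w', w = 0 :: w') ∧ (∀ j ≤ 1, q = st b 0 j → Fn T0 T1 b [] (j = 0) s w) ∧
    ∀ i j, q = st b (i + 1) j → Fn T0 T1 b ((tile T0 T1 b i).drop j) False s w

variable {T0 T1}

theorem inv_nx {b i j s w} (h : Inv T0 T1 (nx T0 T1 b i j) s w) :
    Fn T0 T1 b ((tile T0 T1 b i).drop j) False s w := by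
  unfold nx at h
  split_ifs at h with hj
  · exact (h b).2.2 i j rfl
  · obtain ⟨σ, s', w', h1, -, h3, h4⟩ := (h b).2.1 1 le_rfl rfl
    exact ⟨σ, s', w', h1, False.elim, h3, by rw [List.drop_eq_nil_of_le (by omega)]; exact h4⟩

theorem inv_of {q s w} (h : AccN T0 T1 q s w) : Inv T0 T1 q s w := by
  induction h with
  | k1 q x s w h =>
    obtain ⟨b, hb, ⟨rfl, -, rfl, -⟩ | ⟨-, -, -, e⟩ | ⟨j, -, i, hi, -, -, -, e⟩ |
      ⟨i, j, hj, -, -, -, e⟩⟩ := tr_cases h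
    · intro b'
      refine ⟨fun _ => ⟨w, rfl⟩, fun j hj e => ?_, fun i j e => ?_⟩ <;>
        (rw [st_inj] at e; omega)
    all_goals cases e
  | s0 q x p s w h _ ih =>
    obtain ⟨b, hb, ⟨-, e, -⟩ | ⟨rfl, -, rfl, e⟩ | ⟨j, hj, i, hi, rfl, -, rfl, e⟩ |
      ⟨i, j, hj, -, e, -⟩⟩ := tr_cases h
    · cases e
    · cases e
      intro b'
      refine ⟨fun e => ?_, fun j hj e => ?_, fun i j e => ?_⟩ <;> rw [st_inj] at e
      · omega
      · obtain ⟨rfl, -, rfl⟩ := e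
        obtain ⟨w', rfl⟩ := (ih b).1 rfl
        exact ⟨[], s, w', by simp, by simp, rfl, rfl⟩
      · omega
    · cases e
      intro b'
      refine ⟨fun e => ?_, fun j hj e => ?_, fun i j e => ?_⟩ <;> rw [st_inj] at e
      · omega
      · obtain ⟨rfl, -, rfl⟩ := e
        obtain ⟨σ, s', w', h1, -, rfl, rfl⟩ := inv_nx ih
        exact ⟨i :: σ, s', w', by simpa [hi] using h1, by simp, rfl, by simp⟩
      · omega
    · cases e
  | s1 q x p s w h _ ih =>
    obtain ⟨b, hb, ⟨-, -, -, e⟩ | ⟨-, e, -⟩ | ⟨j, hj, i, hi, -, e, -⟩ |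
      ⟨i, j, hj, rfl, -, rfl, e⟩⟩ := tr_cases h
    · cases e
    · cases e
    · cases e
    · cases e
      intro b'
      refine ⟨fun e => ?_, fun j hj e => ?_, fun i j e => ?_⟩ <;> rw [st_inj] at e
      · omega
      · omega
      · obtain ⟨rfl, e1, rfl⟩ := e
        obtain rfl := Nat.succ.inj e1
        obtain ⟨σ, s', w', h1, -, rfl, rfl⟩ := inv_nx ih
        refine ⟨σ, s', w', h1, False.elim, rfl, ?_⟩
        rw [List.drop_eq_getElem_cons hj, List.getD_eq_getElem _ _ hj]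
        rfl

theorem mark {l l' s s' : List ℕ} (h : l.map (· + 1) ++ 0 :: s = l'.map (· + 1) ++ 0 :: s') :
    l = l' := by
  induction l generalizing l' with
  | nil => cases l' <;> simp_all
  | cons a l ih =>
    cases l' with
    | nil => simp at h
    | cons a' l' =>
      simp only [List.map_cons, List.cons_append, List.cons.injEq, Nat.add_right_cancel_iff] at h
      rw [h.1, ih h.2]

def Sl (T0 T1 : List (List ℕ)) : Prop :=
  ∃ x : List ℕ, x ≠ [] ∧ (∀ i ∈ x, i < T0.length) ∧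
    x.flatMap (fun i => T0.getD i []) = x.flatMap (fun i => T1.getD i [])

theorem sl_of {s w} (h0 : AccN T0 T1 0 s w) (h1 : AccN T0 T1 2 s w) : Sl T0 T1 := by
  obtain ⟨σ, s', w', a1, a2, a3, a4⟩ := ((inv_of h0) 0).2.1 0 (by omega) rfl
  obtain ⟨σ', s'', w'', -, -, b3, b4⟩ := ((inv_of h1) 1).2.1 0 (by omega) rfl
  obtain rfl := mark (a3.symm.trans b3)
  exact ⟨σ, a2 rfl, a1, mark (a4.symm.trans b4)⟩

theorem acc_nx {b : ℕ} (hb : b < 2) {s w} (h : AccN T0 T1 (st b 0 1) s w) (i : ℕ) :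
    ∀ n j, (tile T0 T1 b i).length - j = n →
      AccN T0 T1 (nx T0 T1 b i j) s (((tile T0 T1 b i).drop j).map (· + 1) ++ w) := by
  intro n
  induction n with
  | zero =>
    intro j hj
    rw [nx, if_neg (by omega), List.drop_eq_nil_of_le (by omega)]
    exact h
  | succ n ih =>
    intro j hj
    have hj' : j < (tile T0 T1 b i).length := by omega
    rw [nx, if_pos hj', List.drop_eq_getElem_cons hj']
    refine .s1 _ _ _ _ _ ?_ (ih (j + 1) (by omega))
    rw [tr_st, trS, if_neg (by omega), if_neg (by omega), if_pos]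
    · rfl
    · exact ⟨rfl, hj', by rw [Nat.add_sub_cancel, List.getD_eq_getElem _ _ hj']⟩

theorem acc_cons {b : ℕ} (hb : b < 2) {s w} (h : AccN T0 T1 (st b 0 1) s w) {i j : ℕ}
    (hi : i < T0.length) (hj : j ≤ 1) :
    AccN T0 T1 (st b 0 j) ((i + 1) :: s) ((tile T0 T1 b i).map (· + 1) ++ w) := by
  refine .s0 _ _ _ _ _ ?_ (acc_nx hb h i _ 0 rfl)
  rw [tr_st, trS, if_neg (by omega), if_pos rfl, if_neg (by omega), if_neg (by omega),
    if_pos (by omega)]
  rfl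

theorem acc_main {b : ℕ} (hb : b < 2) (σ : List ℕ) (h : ∀ i ∈ σ, i < T0.length) :
    AccN T0 T1 (st b 0 1) (σ.map (· + 1) ++ [0]) ((σ.flatMap (tile T0 T1 b)).map (· + 1) ++ [0]) := by
  induction σ with
  | nil =>
    refine .s0 _ _ (st b 0 2) _ _ ?_ (.k1 _ _ _ _ ?_) <;>
      rw [tr_st, trS, if_neg (by omega)] <;> simp
  | cons i σ ih =>
    have := acc_cons hb (ih fun j hj => h j (List.mem_cons_of_mem _ hj)) (h i List.mem_cons_self)
      le_rfl
    simpa using this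

theorem acc_of (h : Sl T0 T1) : ∃ s w, (∀ x ∈ s, x < mm T0 T1) ∧ (∀ x ∈ w, x < mm T0 T1) ∧
    AccN T0 T1 0 s w ∧ AccN T0 T1 2 s w := by
  obtain ⟨_ | ⟨i, σ⟩, h1, h2, h3⟩ := h
  · exact absurd rfl h1
  have k : ∀ b < 2, AccN T0 T1 (st b 0 0) ((i :: σ).map (· + 1) ++ [0])
      (((i :: σ).flatMap (tile T0 T1 b)).map (· + 1) ++ [0]) := by
    intro b hb
    have := acc_cons hb (acc_main (T1 := T1) hb σ fun j hj => h2 j (List.mem_cons_of_mem _ hj))
      (h2 i List.mem_cons_self) (Nat.zero_le 1)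
    simpa using this
  have e : (i :: σ).flatMap (tile T0 T1 0) = (i :: σ).flatMap (tile T0 T1 1) := h3
  have m3 := mm3 (T0 := T0) (T1 := T1)
  refine ⟨_, _, ?_, ?_, k 0 (by omega), e ▸ k 1 (by omega)⟩
  · intro x hx
    simp only [List.mem_append, List.mem_map, List.mem_singleton] at hx
    rcases hx with ⟨y, hy, rfl⟩ | rfl
    · have := h2 y hy
      unfold mm; omega
    · omega
  · intro x hx
    simp only [List.mem_append, List.mem_map, List.mem_singleton, List.mem_flatMap] at hx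
    rcases hx with ⟨y, ⟨j, -, hy⟩, rfl⟩ | rfl
    · exact tile_lt hy
    · omega

/-! typed version -/

variable (T0 T1)

abbrev XX := Fin (mm T0 T1 ^ 8 + 1)
abbrev QQ := Fin (mm T0 T1 ^ 4)

def phT (u : (Fin 3 × XX T0 T1) × QQ T0 T1) : Option ((Fin 3 × XX T0 T1) × QQ T0 T1) :=
  (ph T0 T1 u.1.1 u.1.2 u.2).bind fun r =>
    if h : r.1 < 3 ∧ r.2.1 < mm T0 T1 ^ 8 + 1 ∧ r.2.2 < mm T0 T1 ^ 4 then
      some ((⟨r.1, h.1⟩, ⟨r.2.1, h.2.1⟩), ⟨r.2.2, h.2.2⟩) else none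

variable {T0 T1}

theorem phT_iff {u w} : phT T0 T1 u = some w ↔
    ph T0 T1 u.1.1 u.1.2 u.2 = some (w.1.1.1, w.1.2.1, w.2.1) := by
  unfold phT
  cases ph T0 T1 u.1.1 u.1.2 u.2 with
  | none => simp
  | some r =>
    simp only [Option.bind_some, Option.some.injEq]
    constructor
    · intro h
      split_ifs at h
      cases h
      rfl
    · rintro rfl
      rw [dif_pos ⟨w.1.1.2, w.1.2.2, w.2.2⟩]

theorem m48 : mm T0 T1 < mm T0 T1 ^ 4 ∧ mm T0 T1 < mm T0 T1 ^ 8 + 1 := by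
  have := mm3 (T0 := T0) (T1 := T1)
  refine ⟨?_, Nat.lt_succ_of_le (Nat.le_self_pow (by omega) _)⟩
  conv_lhs => rw [← pow_one (mm T0 T1)]
  exact Nat.pow_lt_pow_right (by omega) (by omega)

theorem ph_rng (hl : T0.length = T1.length) (u : (Fin 3 × XX T0 T1) × QQ T0 T1) :
    ph T0 T1 u.1.1 u.1.2 u.2 = (phT T0 T1 u).map fun w => (w.1.1.1, w.1.2.1, w.2.1) := by
  cases h : ph T0 T1 u.1.1 u.1.2 u.2 with
  | none => simp [phT, h]
  | some r =>
    have m := m48 (T0 := T0) (T1 := T1)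
    have : r.1 < 3 ∧ r.2.1 < mm T0 T1 ^ 8 + 1 ∧ r.2.2 < mm T0 T1 ^ 4 := by
      unfold ph at h
      split_ifs at h with h1 h2 h3 h4 h5 <;> cases h
      · exact ⟨by simp, by simp, by simp only []; omega⟩
      · have := tr_rng hl h4.1
        exact ⟨by simp only []; omega, by simp only []; omega, h4.2⟩
      · exact ⟨u.1.1.2, u.1.2.2, u.2.2⟩
    simp only [phT, h, Option.bind_some, dif_pos this, Option.map_some]

theorem ne2 {j : Fin 3} : j ≠ 2 ↔ j.1 ≠ 2 := by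
  fin_cases j <;> simp

theorem n1 {a : Fin 3 × XX T0 T1} {p w} (h : a.1 ≠ 2) :
    phT T0 T1 (a, p) = some w ↔ tr T0 T1 p a.1 a.2 ≠ none ∧ w = (a, p) := by
  rw [phT_iff, ph, if_neg (ne2.1 h)]
  split_ifs with h1
  · simp [h1]
  · simp only [Option.some.injEq, Prod.mk.injEq, Fin.val_inj, ne_eq, h1, not_false_eq_true,
      true_and]
    constructor
    · rintro ⟨e1, e2, e3⟩
      exact Prod.ext (Prod.ext e1.symm e2.symm) e3.symm
    · rintro rfl
      exact ⟨rfl, rfl, rfl⟩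

theorem n2 {h : XX T0 T1} {p w} : phT T0 T1 ((2, h), p) = some w ↔
    (h.1 = 0 ∧ (p.1 = 0 ∨ p.1 = 2) ∧ w.1.1 = 2 ∧ w.1.2.1 = 0 ∧ w.2.1 = 0) ∨
    (tr T0 T1 w.2 w.1.1 w.1.2 = some (some p.1) ∧ h.1 = st w.2 w.1.1 w.1.2 + 1) := by
  rw [phT_iff]
  change ph T0 T1 2 h p = _ ↔ _
  rw [ph, if_pos rfl]
  split_ifs with h1 h2 h3
  · simp only [Option.some.injEq, Prod.mk.injEq, h1, h2, true_and]
    constructor
    · rintro ⟨e1, e2, e3⟩
      exact .inl ⟨Fin.ext e1.symm, e2.symm, e3.symm⟩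
    · rintro (⟨e1, e2, e3⟩ | ⟨-, e⟩)
      · exact ⟨by rw [e1]; rfl, e2.symm, e3.symm⟩
      · omega
  · simp [h1, h2]
  · simp only [Option.some.injEq, Prod.mk.injEq, h1, false_and, false_or]
    constructor
    · rintro ⟨e1, e2, e3⟩
      rw [← e1, ← e2, ← e3]
      refine ⟨h3.1, ?_⟩
      simp only [st, Nat.pair_unpair]
      omega
    · rintro ⟨-, e⟩
      simp [e, st]
  · simp only [h1, false_and, false_or, false_iff, not_and]
    intro e1 e2
    apply h3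
    simp [e2, st, e1]

def q0 : QQ T0 T1 := ⟨0, by have := m48 (T0 := T0) (T1 := T1); omega⟩
def q2 : QQ T0 T1 :=
  ⟨2, by have := m48 (T0 := T0) (T1 := T1); have := mm3 (T0 := T0) (T1 := T1); omega⟩

theorem good (hl : T0.length = T1.length) : Good (phT T0 T1) 0 q0 q2 := by
  have c2 : ∀ {q x o} {j : Fin 3}, tr T0 T1 q j x = some o → j ≠ 2 := fun h =>
    ne2.2 (by have := (tr_rng hl h).1; omega)
  have p6 : phT T0 T1 ((2, 0), q0) = some ((2, 0), q0) := n2.2 (.inl ⟨rfl, .inl rfl, rfl, rfl, rfl⟩)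
  refine ⟨?_, fun a p w h e => ((n1 h).1 e).2, ?_, ?_, ?_, p6,
    n2.2 (.inl ⟨rfl, .inr rfl, rfl, rfl, rfl⟩)⟩
  · rintro ⟨⟨j, x⟩, p⟩ ⟨⟨j', x'⟩, p'⟩ e
    by_cases hj : j = 2
    · subst hj
      rcases n2.1 e with ⟨-, -, e1, e2, e3⟩ | ⟨e1, -⟩
      · obtain rfl : j' = 2 := e1
        exact n2.2 (.inl ⟨e2, .inl e3, rfl, e2, e3⟩)
      · exact (n1 (c2 e1)).2 ⟨by rw [e1]; simp, rfl⟩
    · have := ((n1 hj).1 e).2
      rw [this] at e ⊢
      exact e
  · intro a b p w w' ha hb e e'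
    obtain ⟨o, ho⟩ := Option.ne_none_iff_exists'.1 ((n1 ha).1 e).1
    obtain ⟨o', ho'⟩ := Option.ne_none_iff_exists'.1 ((n1 hb).1 e').1
    exact Fin.ext (tr_side ho ho')
  · intro h p w e hw
    rcases n2.1 e with ⟨e0, e1, e2, e3, e4⟩ | ⟨e1, -⟩
    · exact ⟨Prod.ext (Prod.ext e2 (Fin.ext e3)) (Fin.ext e4), Fin.ext e0,
        e1.imp Fin.ext Fin.ext⟩
    · exact absurd hw (c2 e1)
  · intro h p h' p' w e e' hw
    rcases n2.1 e with ⟨-, -, e2, -⟩ | ⟨e1, e2⟩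
    · exact absurd e2 hw
    rcases n2.1 e' with ⟨-, -, e2, -⟩ | ⟨e3, e4⟩
    · exact absurd e2 hw
    rw [e1] at e3
    exact ⟨Fin.ext (e2.trans e4.symm), Fin.ext (Option.some.inj (Option.some.inj e3))⟩

theorem n3 (hl : T0.length = T1.length) {a : Fin 3 × XX T0 T1} {q : QQ T0 T1} {p : ℕ}
    (h : tr T0 T1 q a.1 a.2 = some (some p)) :
    ∃ x p', p'.1 = p ∧ phT T0 T1 ((2, x), p') = some (a, q) := by
  obtain ⟨r1, r2, r3⟩ := tr_rng hl h
  have m3 := mm3 (T0 := T0) (T1 := T1)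
  have : st q a.1 a.2 < mm T0 T1 ^ 8 := by
    have h1 := (pair_lt (x := a.1) (by omega) r2).trans_le
      (Nat.pow_le_pow_right (by omega) (by omega : 2 ≤ 4))
    have := pair_lt q.2 h1
    rwa [← pow_mul] at this
  exact ⟨⟨st q a.1 a.2 + 1, by omega⟩, ⟨p, r3 p rfl⟩, rfl, n2.2 (.inr ⟨h, rfl⟩)⟩

theorem accN_of (hl : T0.length = T1.length) {q ω} (h : AccT (phT T0 T1) q ω) :
    AccN T0 T1 q ((ω 0).map Fin.val) ((ω 1).map Fin.val) := by
  induction h with
  | kill a q ω h1 h2 h3 =>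
    obtain ⟨_ | p, ho⟩ := Option.ne_none_iff_exists'.1 ((n1 h1).1 h2).1
    · obtain ⟨j, x⟩ := a
      obtain rfl : j = 1 := by
        obtain ⟨b, hb, ⟨-, e, -⟩ | ⟨-, -, -, e⟩ | ⟨j, -, i, hi, -, -, -, e⟩ |
          ⟨i, j, hj, -, -, -, e⟩⟩ := tr_cases ho
        · exact Fin.ext e
        all_goals cases e
      rw [push_self]
      exact .k1 _ _ _ _ ho
    · obtain ⟨x, p', -, e⟩ := n3 hl ho
      exact absurd e (h3 _ _)
  | step a q ω h p h1 h2 _ ih =>
    rcases n2.1 h2 with ⟨-, -, e2, -⟩ | ⟨e1, -⟩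
    · exact absurd e2 h1
    rw [push_ne _ _ (by simp), push_ne _ _ (by simp)] at ih
    obtain ⟨j, x⟩ := a
    obtain rfl | rfl | rfl : j = 0 ∨ j = 1 ∨ j = 2 := by omega
    · rw [push_self, push_ne _ _ (by simp)]
      exact .s0 _ _ _ _ _ e1 ih
    · rw [push_self, push_ne _ _ (by simp)]
      exact .s1 _ _ _ _ _ e1 ih
    · exact absurd rfl h1

theorem accT_of (hl : T0.length = T1.length) {q s w} (h : AccN T0 T1 q s w) :
    ∀ (q' : QQ T0 T1) (ω : W (XX T0 T1)), q'.1 = q → (ω 0).map Fin.val = s →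
      (ω 1).map Fin.val = w → AccT (phT T0 T1) q' ω := by
  induction h with
  | k1 q x s w h =>
    rintro q' ω rfl - e
    obtain ⟨y, t, e1, rfl, -⟩ := List.map_eq_cons_iff.1 e
    rw [eq_push e1]
    refine .kill _ _ _ (by simp) ((n1 (by simp)).2 ⟨fun e => (nomatch h.symm.trans e), rfl⟩)
      fun z p e => ?_
    rcases n2.1 e with ⟨-, -, e2, -⟩ | ⟨e2, -⟩
    · simp at e2
    · cases h.symm.trans e2
  | s0 q x p s w h _ ih =>
    rintro q' ω rfl e e'
    obtain ⟨y, t, e1, rfl, e2⟩ := List.map_eq_cons_iff.1 e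
    rw [eq_push e1]
    obtain ⟨z, p', k1, k2⟩ := n3 hl (a := (0, y)) h
    exact .step _ _ _ z p' (by simp) k2 (ih _ _ k1 (by simpa [push] using e2)
      (by simpa [push] using e'))
  | s1 q x p s w h _ ih =>
    rintro q' ω rfl e' e
    obtain ⟨y, t, e1, rfl, e2⟩ := List.map_eq_cons_iff.1 e
    rw [eq_push e1]
    obtain ⟨z, p', k1, k2⟩ := n3 hl (a := (1, y)) h
    exact .step _ _ _ z p' (by simp) k2 (ih _ _ k1 (by simpa [push] using e')
      (by simpa [push] using e2))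

theorem surj_iff (hl : T0.length = T1.length) (r) (K : Type) [Field K] :
    Surj r (phT T0 T1) K ↔ ¬ Sl T0 T1 := by
  constructor
  · intro hs h
    obtain ⟨s, w, h1, h2, h3, h4⟩ := acc_of h
    have m := (m48 (T0 := T0) (T1 := T1)).2
    have lift : ∀ l : List ℕ, (∀ x ∈ l, x < mm T0 T1) →
        ∃ l' : List (XX T0 T1), l'.map Fin.val = l := fun l hl =>
      ⟨l.pmap Fin.mk fun x hx => (hl x hx).trans m, by simp [List.map_pmap]⟩
    obtain ⟨s', rfl⟩ := lift s h1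
    obtain ⟨w', rfl⟩ := lift w h2
    exact not_surj (good hl) r K ![s', w', []]
      (accT_of hl h3 _ _ rfl (by simp [push]) (by simp [push]))
      (accT_of hl h4 _ _ rfl (by simp [push]) (by simp [push])) hs
  · intro h
    exact surj_of (good hl) r K fun ω h1 h2 => h (sl_of (accN_of hl h1) (accN_of hl h2))

end Pool.Agent.H.MP_fc7d68_al
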