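import Mathlib
import Pool.Agent.H.MP_fc7d68_al.E
import Pool.Agent.H.MP_d7c5de_lc.PCP
import Pool.Agent.Lib.helper13.PR

set_option linter.unusedSectionVars false

namespace Pool.Agent.H.MP_fc7d68_al

open MvPolynomial

theorem lift_lin {K A N : Type} [Field K] [CommRing A] [Algebra K A] [AddCommGroup N] [Module K N]
    (s : Set A) (L : A →ₗ[K] N) (h : ∀ g ∈ s, ∀ a, L (g * a) = 0) :
    ∃ L' : (A ⧸ Ideal.span s) →ₗ[K] N, ∀ p, L' (Ideal.Quotient.mk _ p) = L p := by
  obtain ⟨t, ht⟩ := (Ideal.Quotient.mkₐ K (Ideal.span s)).toLinearMap.exists_rightInverse_of_surjective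
    (LinearMap.range_eq_top.2 Ideal.Quotient.mk_surjective)
  have z : ∀ p ∈ Ideal.span s, ∀ a, L (p * a) = 0 := by
    intro p hp
    induction hp using Submodule.span_induction with
    | mem x hx => exact h x hx
    | zero => simp
    | add x y _ _ hx hy => intro a; rw [add_mul, map_add, hx, hy, add_zero]
    | smul c x _ hx => intro a; rw [smul_eq_mul, mul_comm c, mul_assoc, hx]
  refine ⟨L ∘ₗ t, fun p => ?_⟩
  have h1 : Ideal.Quotient.mk (Ideal.span s) (t (Ideal.Quotient.mk _ p)) = Ideal.Quotient.mk _ p :=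
    LinearMap.congr_fun ht _
  have := z _ (Ideal.Quotient.eq.1 h1) 1
  rwa [mul_one, map_sub, sub_eq_zero] at this

theorem ex_sys (K : Type) [Field K] {X : Type} [Fintype X] [DecidableEq X] {n : ℕ}
    (e : Fin 3 × X ≃ Fin n) (s : Set (MvPolynomial (Fin n) K))
    (hs : ∀ g, g ∈ s ↔ ∃ a b, a.1 = b.1 ∧ g = MvPolynomial.X (e a) * MvPolynomial.X (e b)) :
    ∃ S : Sys K (MvPolynomial (Fin n) K ⧸ Ideal.span s) X,
      ∀ a, S.ξ a = Ideal.Quotient.mk _ (MvPolynomial.X (e a)) := by
  set mk := Ideal.Quotient.mkₐ K (Ideal.span s) with hmk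
  let ξ : Fin 3 × X → MvPolynomial (Fin n) K ⧸ Ideal.span s := fun a => mk (MvPolynomial.X (e a))
  have h1 : ∀ a b, a.1 = b.1 → ξ a * ξ b = 0 := fun a b h => by
    rw [← map_mul]
    exact Ideal.Quotient.eq_zero_iff_mem.2 (Ideal.subset_span ((hs _).2 ⟨a, b, h, rfl⟩))
  let π0 : Fin 3 → MvPolynomial (Fin n) K →ₐ[K] MvPolynomial (Fin n) K ⧸ Ideal.span s :=
    fun j => aeval fun v => if (e.symm v).1 = j then 0 else mk (MvPolynomial.X v)
  have πX : ∀ j a, π0 j (MvPolynomial.X (e a)) = if a.1 = j then 0 else ξ a := by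
    intro j a; simp [π0, ξ]
  have ππ : ∀ j a b, a.1 = b.1 → π0 j (MvPolynomial.X (e a)) * π0 j (MvPolynomial.X (e b)) = 0 := by
    intro j a b h
    rw [πX, πX]
    split_ifs <;> simp [h1 a b h]
  have dX : ∀ a b p, pderiv (e a) (MvPolynomial.X (e b) * p : MvPolynomial (Fin n) K) =
      (if a = b then p else 0) + MvPolynomial.X (e b) * pderiv (e a) p := by
    intro a b p
    rw [Derivation.leibniz, pderiv_X, Pi.single_apply]
    simp only [smul_eq_mul, EmbeddingLike.apply_eq_iff_eq]
    by_cases h : a = b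
    · simp [h, add_comm]
    · simp [h, Ne.symm h]
  choose π hπ using fun j => lift_lin s (π0 j).toLinearMap (by
    intro g hg a
    obtain ⟨b, c, h, rfl⟩ := (hs g).1 hg
    simp only [AlgHom.toLinearMap_apply, map_mul, ππ j b c h, zero_mul])
  choose D hD using fun a : Fin 3 × X =>
    lift_lin s ((π0 a.1).toLinearMap ∘ₗ (pderiv (e a)).toLinearMap) (by
    intro g hg p
    obtain ⟨b, c, h, rfl⟩ := (hs g).1 hg
    simp only [LinearMap.comp_apply, Derivation.coeFn_coe, AlgHom.toLinearMap_apply, mul_assoc,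
      dX, map_add, map_mul, mul_add]
    rw [← mul_assoc, ππ _ b c h, zero_mul, add_zero]
    by_cases h2 : b.1 = a.1
    · rw [πX, if_pos h2]
      split_ifs <;> simp [πX, ← h, h2]
    · rw [if_neg (fun e => h2 (by rw [e])), if_neg (fun e => h2 (by rw [e, h]))]
      simp)
  obtain ⟨c0, hc0⟩ := lift_lin s (aeval (fun _ => (0 : K)) : MvPolynomial (Fin n) K →ₐ[K] K).toLinearMap
    (by
    intro g hg a
    obtain ⟨b, c, h, rfl⟩ := (hs g).1 hg
    simp)
  choose c1 hc1 using fun a : Fin 3 × X => lift_lin s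
    ((aeval (fun _ => (0 : K)) : MvPolynomial (Fin n) K →ₐ[K] K).toLinearMap ∘ₗ
      (pderiv (e a)).toLinearMap) (by
    intro g hg p
    obtain ⟨b, c, h, rfl⟩ := (hs g).1 hg
    simp only [LinearMap.comp_apply, Derivation.coeFn_coe, AlgHom.toLinearMap_apply, mul_assoc,
      dX, map_add, map_mul]
    split_ifs <;> simp)
  simp only [LinearMap.comp_apply, Derivation.coeFn_coe, AlgHom.toLinearMap_apply] at hπ hD hc0 hc1
  have sj : ∀ r : MvPolynomial (Fin n) K ⧸ Ideal.span s, ∃ p, r = Ideal.Quotient.mk _ p :=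
    fun r => (Ideal.Quotient.mk_surjective r).imp fun _ => Eq.symm
  have mx : ∀ a p, ξ a * Ideal.Quotient.mk _ p = Ideal.Quotient.mk _ (MvPolynomial.X (e a) * p) :=
    fun _ _ => rfl
  refine ⟨⟨ξ, π, D, c0, c1, h1, ?_, ?_, ?_, ?_, ?_, ?_, ?_⟩, fun _ => rfl⟩
  · intro j r
    obtain ⟨p, rfl⟩ := sj r
    simp only [hD, hπ]
    induction p using MvPolynomial.induction_on with
    | C c =>
      simp only [pderiv_C, map_zero, mul_zero, Finset.sum_const_zero]
      rw [← algebraMap_eq, AlgHom.commutes, Ideal.Quotient.mk_algebraMap, sub_self]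
    | add p q hp hq =>
      simp only [map_add, mul_add, Finset.sum_add_distrib, hp, hq]
      ring
    | mul_X p v hp =>
      obtain ⟨b, rfl⟩ := e.surjective v
      rw [mul_comm p, ← mx]
      simp only [dX, map_add, map_mul, πX, mul_add, Finset.sum_add_distrib]
      by_cases hb : b.1 = j
      · obtain ⟨i, y⟩ := b
        obtain rfl : i = j := hb
        rw [Finset.sum_eq_single y (fun x _ hx => by simp [hx]) (by simp),
          ← sub_add_cancel (Ideal.Quotient.mk _ p) (π0 i p), ← hp, mul_add, Finset.mul_sum]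
        have z : ∀ x, ξ (i, y) * ξ (i, x) = 0 := fun x => h1 _ _ rfl
        simp only [← mul_assoc, z]
        simp
      · rw [Finset.sum_eq_zero fun x _ => by rw [if_neg (fun e => hb (by rw [← e]))]; simp]
        simp only [if_neg hb, mul_left_comm _ (ξ b)]
        rw [← Finset.mul_sum, hp]
        ring
  · intro j x y r
    obtain ⟨p, rfl⟩ := sj r
    rw [mx, hD, hπ, dX, map_add, map_mul, πX]
    by_cases h : x = y <;> simp [h]
  · intro a b r h
    obtain ⟨p, rfl⟩ := sj r
    rw [mx, hD, hD, dX, map_add, map_mul, πX, if_neg (fun e => h (by rw [e])), if_neg h.symm]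
    simp
  · rw [← map_one (Ideal.Quotient.mk _), hc0, map_one]
  · intro a r
    obtain ⟨p, rfl⟩ := sj r
    rw [mx, hc0]; simp
  · intro a b r
    obtain ⟨p, rfl⟩ := sj r
    rw [mx, hc1, hc0, dX]
    split_ifs <;> simp
  · intro r
    obtain ⟨p, rfl⟩ := sj r
    rw [hc0]
    induction p using MvPolynomial.induction_on with
    | C c => exact ⟨0, by simp; rfl⟩
    | add p q hp hq =>
      obtain ⟨y, hy⟩ := hp
      obtain ⟨z, hz⟩ := hq
      refine ⟨y + z, ?_⟩
      simp only [map_add, Pi.add_apply, mul_add, Finset.sum_add_distrib]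
      linear_combination hy + hz
    | mul_X p v _ =>
      obtain ⟨b, rfl⟩ := e.surjective v
      refine ⟨Pi.single b (Ideal.Quotient.mk _ p), ?_⟩
      rw [mul_comm p, ← mx, Finset.sum_eq_single b (fun x _ hx => by simp [hx]) (by simp)]
      simp

section
variable {K R X : Type} [Field K] [CommRing R] [Algebra K R] [Fintype X] [DecidableEq X]
  (S : Sys K R X) {Q : Type} [Fintype Q] [DecidableEq Q]

def rL : Fin 3 → Fin 3 → Bool := fun i j => decide (i < j)

theorem rL_ord : Ord rL := ⟨by decide, by decide⟩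

theorem vec_mem (u : (Fin 3 × X) × Q) :
    vec S u ∈ (Ideal.span (Set.range S.ξ) • ⊤ : Submodule R (Q → R)) := by
  have : vec S u = S.ξ u.1 • (Pi.single u.2 1 : Q → R) := by simp [vec, ← Pi.single_smul]
  rw [this]
  exact Submodule.smul_mem_smul (Ideal.subset_span ⟨_, rfl⟩) trivial

theorem koszul :
    LinRes S.L (Ideal.span (Set.range S.ξ) • ⊤ : Submodule R (Q → R)) := by
  have := lin_of_surj S rL (Q := Q) (fun _ => none) rL_ord (by simp)
    (fun i t => ⟨0, fun w => nomatch w.2.2⟩)
  convert this using 1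
  refine le_antisymm (Submodule.smul_le.2 fun r hr v _ => ?_) (Submodule.span_le.2 ?_)
  · obtain ⟨c, rfl⟩ := Ideal.mem_span_range_iff_exists_fun.1 hr
    rw [Finset.sum_smul]
    refine Submodule.sum_mem _ fun a _ => ?_
    rw [← Finset.univ_sum_single v, Finset.smul_sum]
    refine Submodule.sum_mem _ fun p _ => ?_
    have : (c a * S.ξ a) • (Pi.single p (v p) : Q → R) =
        (c a * v p) • rel S (fun _ => none) (a, p) := by
      simp only [rel, vec, Option.elim, sub_zero, ← Pi.single_smul, smul_eq_mul]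
      congr 1; ring
    rw [this]
    exact Submodule.smul_mem _ _ (Submodule.subset_span (Or.inl ⟨_, rfl⟩))
  · rintro _ (⟨u, rfl⟩ | ⟨⟨a, b, p⟩, rfl⟩)
    · simpa [rel] using vec_mem S u
    · have := Submodule.smul_mem _ (S.ξ a) (vec_mem S (b, p))
      simpa [vec, ← Pi.single_smul] using this

theorem sq_le (φ) : (Ideal.span (Set.range S.ξ) ^ 2 • ⊤ : Submodule R (Q → R)) ≤ Nn S φ := by
  refine Submodule.smul_le.2 fun r hr v _ => ?_
  rw [pow_two] at hr
  refine Submodule.mul_induction_on hr (fun x hx y hy => ?_) fun x y hx hy => ?_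
  · obtain ⟨c, rfl⟩ := Ideal.mem_span_range_iff_exists_fun.1 hx
    obtain ⟨d, rfl⟩ := Ideal.mem_span_range_iff_exists_fun.1 hy
    rw [Finset.sum_mul_sum, Finset.sum_smul]
    refine Submodule.sum_mem _ fun a _ => ?_
    rw [Finset.sum_smul]
    refine Submodule.sum_mem _ fun b _ => ?_
    have := quad_mem S φ a b ((c a * d b) • v)
    rw [smul_smul, smul_smul] at this
    convert this using 2
    ring
  · rw [add_smul]
    exact Submodule.add_mem _ hx hy

theorem not_le {φ} (hφ : ∀ u w, φ u = some w → φ w = some w) (u) (hu : φ u = some u) :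
    ¬ (Ideal.span (Set.range S.ξ) • ⊤ : Submodule R (Q → R)) ≤ Nn S φ := by
  intro h
  have h1 := mu_N S φ hφ u (h (vec_mem S u))
  have h2 := mu_vec S φ u u 1
  rw [one_smul, h1, if_pos hu, S.k0] at h2
  exact zero_ne_one h2

end

theorem lin_iff {T0 T1 : List (List ℕ)} (hl : T0.length = T1.length) {K R : Type} [Field K]
    [CommRing R] [Algebra K R] (S : Sys K R (XX T0 T1)) :
    LinRes S.L (Nn S (phT T0 T1)) ↔ ¬ Sl T0 T1 := by
  rw [← surj_iff hl rL K]
  exact ⟨surj_of_lin S rL _ rL_ord (good hl).p1, lin_of_surj S rL _ rL_ord (good hl).p1⟩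

/-! the computable family of inputs -/

def gens (B : ℕ) : List (List (ℤ × List ℕ)) :=
  (List.range 3).flatMap fun j => (List.range B).flatMap fun x => (List.range B).map fun y =>
    [(1, [x + B * j, y + B * j])]

def row1 (T0 T1 : List (List ℕ)) (B A j x p : ℕ) : List (List (ℤ × List ℕ)) :=
  (List.range A).map fun k => (if k = p then [(1, [x + B * j])] else []) ++
    ((ph T0 T1 j x p).map fun r => if k = r.2.2 then [(-1, [r.2.1 + B * r.1])] else []).getD []

def row2 (A v v' p : ℕ) : List (List (ℤ × List ℕ)) :=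
  (List.range A).map fun k => if k = p then [(1, [v, v'])] else []

def rows (T0 T1 : List (List ℕ)) (B A : ℕ) : List (List (List (ℤ × List ℕ))) :=
  ((List.range 3).flatMap fun j => (List.range B).flatMap fun x => (List.range A).map fun p =>
    row1 T0 T1 B A j x p) ++
  ((List.range (3 * B)).flatMap fun v => (List.range (3 * B)).flatMap fun v' =>
    (List.range A).map fun p => row2 A v v' p)

def inp (T0 T1 : List (List ℕ)) :
    ℕ × List (List (ℤ × List ℕ)) × ℕ × List (List (List (ℤ × List ℕ))) :=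
  (3 * (mm T0 T1 ^ 8 + 1), gens (mm T0 T1 ^ 8 + 1), mm T0 T1 ^ 4,
    rows T0 T1 (mm T0 T1 ^ 8 + 1) (mm T0 T1 ^ 4))

section
open Pool.Agent.Lib.PR
attribute [local irreducible] Primrec Computable
variable {α : Type} [Primcodable α] {T0 T1 : α → List (List ℕ)} {a b c d e : α → ℕ}

@[fun_prop] theorem pr_tile (h0 : Primrec T0) (h1 : Primrec T1) (ha : Primrec a) (hb : Primrec b) :
    Primrec fun z => tile (T0 z) (T1 z) (a z) (b z) := by unfold tile; fun_prop
@[fun_prop] theorem pr_st (ha : Primrec a) (hb : Primrec b) (hc : Primrec c) :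
    Primrec fun z => st (a z) (b z) (c z) := by unfold st; fun_prop
attribute [local irreducible] tile st
@[fun_prop] theorem pr_nx (h0 : Primrec T0) (h1 : Primrec T1) (ha : Primrec a) (hb : Primrec b)
    (hc : Primrec c) : Primrec fun z => nx (T0 z) (T1 z) (a z) (b z) (c z) := by
  unfold nx; fun_prop
attribute [local irreducible] nx
@[fun_prop] theorem pr_trS (h0 : Primrec T0) (h1 : Primrec T1) (ha : Primrec a) (hb : Primrec b)
    (hc : Primrec c) (hd : Primrec d) (he : Primrec e) :
    Primrec fun z => trS (T0 z) (T1 z) (a z) (b z) (c z) (d z) (e z) := by unfold trS; fun_prop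
attribute [local irreducible] trS
@[fun_prop] theorem pr_tr (h0 : Primrec T0) (h1 : Primrec T1) (ha : Primrec a) (hb : Primrec b)
    (hc : Primrec c) : Primrec fun z => tr (T0 z) (T1 z) (a z) (b z) (c z) := by
  unfold tr; fun_prop
@[fun_prop] theorem pr_mm (h0 : Primrec T0) (h1 : Primrec T1) :
    Primrec fun z => mm (T0 z) (T1 z) := by unfold mm; fun_prop
attribute [local irreducible] tr mm
@[fun_prop] theorem pr_ph (h0 : Primrec T0) (h1 : Primrec T1) (ha : Primrec a) (hb : Primrec b)
    (hc : Primrec c) : Primrec fun z => ph (T0 z) (T1 z) (a z) (b z) (c z) := by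
  unfold ph; fun_prop
attribute [local irreducible] ph
@[fun_prop] theorem pr_gens (ha : Primrec a) : Primrec fun z => gens (a z) := by
  unfold gens; fun_prop
@[fun_prop] theorem pr_row1 (h0 : Primrec T0) (h1 : Primrec T1) (ha : Primrec a) (hb : Primrec b)
    (hc : Primrec c) (hd : Primrec d) (he : Primrec e) :
    Primrec fun z => row1 (T0 z) (T1 z) (a z) (b z) (c z) (d z) (e z) := by unfold row1; fun_prop
@[fun_prop] theorem pr_row2 (ha : Primrec a) (hb : Primrec b) (hc : Primrec c) (hd : Primrec d) :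
    Primrec fun z => row2 (a z) (b z) (c z) (d z) := by unfold row2; fun_prop
attribute [local irreducible] gens row1 row2
@[fun_prop] theorem pr_rows (h0 : Primrec T0) (h1 : Primrec T1) (ha : Primrec a) (hb : Primrec b) :
    Primrec fun z => rows (T0 z) (T1 z) (a z) (b z) := by unfold rows; fun_prop
attribute [local irreducible] rows
theorem pr_inp (h0 : Primrec T0) (h1 : Primrec T1) : Primrec fun z => inp (T0 z) (T1 z) := by
  unfold inp; fun_prop
end

end Pool.Agent.H.MP_fc7d68_al
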